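import Pool.Agent.N876.TC.Main

/-!
# Galois invariants, and the condition on the exponents for coprime degrees
-/

set_option autoImplicit false

namespace Pool.Agent.N876.TC

open Finset Polynomial TensorProduct

theorem weight_conv {ι : Type} {f N : ℕ} (hf : 0 < f) (hN : 0 < N) {d n : ι → ℕ}
    (hdN : ∀ i, d i ∣ N) (I : Finset ι) (A : ι → ℕ)
    (h : ∑ i ∈ I, (A i : ℚ) / (f * d i) < ∑ i ∈ I, ((n i : ℚ) / 2 + 1)) :
    2 * ∑ i ∈ I, (N / d i) * A i < f * N * ∑ i ∈ I, (n i + 2) := by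
  have hf' : (0 : ℚ) < f := by exact_mod_cast hf
  have hN' : (0 : ℚ) < N := by exact_mod_cast hN
  have h0 : ∀ i, (((N / d i : ℕ) : ℚ)) * (A i : ℚ) = (f * N) * ((A i : ℚ) / (f * d i)) := by
    intro i
    have hd0 : (d i : ℚ) ≠ 0 := by
      have := Nat.pos_of_dvd_of_pos (hdN i) hN
      exact_mod_cast this.ne'
    rw [Nat.cast_div (hdN i) hd0]
    field_simp
  have h1 : ((2 * ∑ i ∈ I, (N / d i) * A i : ℕ) : ℚ) =
      2 * f * N * ∑ i ∈ I, (A i : ℚ) / (f * d i) := by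
    rw [Nat.cast_mul, Nat.cast_sum]
    have h00 : ∑ i ∈ I, (((N / d i) * A i : ℕ) : ℚ) =
        ∑ i ∈ I, (f * N) * ((A i : ℚ) / (f * d i)) :=
      Finset.sum_congr rfl fun i _ => by rw [Nat.cast_mul, h0]
    rw [h00, ← Finset.mul_sum]
    push_cast
    ring
  have h2 : ((f * N * ∑ i ∈ I, (n i + 2) : ℕ) : ℚ) =
      2 * f * N * ∑ i ∈ I, ((n i : ℚ) / 2 + 1) := by
    push_cast
    rw [mul_sum, mul_sum]
    exact sum_congr rfl fun i _ => by ring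
  have h3 : ((2 * ∑ i ∈ I, (N / d i) * A i : ℕ) : ℚ) < ((f * N * ∑ i ∈ I, (n i + 2) : ℕ) : ℚ) := by
    rw [h1, h2]
    exact mul_lt_mul_of_pos_left h (by positivity)
  exact_mod_cast h3

theorem mem_gen_of_eig {T : Type} [AddCommGroup T] [Module ℂ T] (F : Module.End ℂ T) {μ : ℂ}
    {v : T} (h : F v = μ • v) : v ∈ F.maxGenEigenspace μ := by
  refine (Module.End.mem_maxGenEigenspace _ _ _).2 ⟨1, ?_⟩
  rw [pow_one, LinearMap.sub_apply, LinearMap.smul_apply, Module.End.one_apply, h, sub_self]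

/-- the Chinese remainder theorem -/
theorem exists_crt {ι : Type} [Fintype ι] {d : ι → ℕ} (hd : ∀ i, 0 < d i)
    (hco : ∀ i j, i ≠ j → (d i).Coprime (d j)) (u : ι → ℕ) (hu : ∀ i, (u i).Coprime (d i)) :
    ∃ v : ℕ, v.Coprime (∏ i, d i) ∧ ∀ i, v ≡ u i [MOD d i] := by
  classical
  obtain ⟨v, hv⟩ := Nat.chineseRemainderOfFinset u d univ (fun i _ => (hd i).ne')
    (fun i _ j _ hij => hco i j hij)
  refine ⟨v, ?_, fun i => hv i (mem_univ i)⟩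
  refine Nat.Coprime.prod_right fun i _ => ?_
  have h1 := (hv i (mem_univ i)).gcd_eq
  show Nat.gcd v (d i) = 1
  rw [h1]
  exact hu i

section gal

variable {c : ℕ} [Fact c.Prime] {ι : Type} [Fintype ι] [DecidableEq ι]
  {K W : ι → Type} [∀ i, Fintype (K i)] [∀ i, AddCommGroup (W i)] [∀ i, Module ℂ (W i)]
  [∀ i, FiniteDimensional ℂ (W i)] {B : Type} [AddCommGroup B] [Module ℂ B]
  [FiniteDimensional ℂ B] [∀ i, DecidableEq (K i)]

omit [∀ i, DecidableEq (K i)] [∀ i, Fintype (K i)] [DecidableEq ι] [Fintype ι]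
  [∀ i, FiniteDimensional ℂ (W i)] [FiniteDimensional ℂ B] in
theorem act_pow {Γ : Type} [Group Γ] (χ : Γ →* ℂˣ) (deg : ∀ i, K i → ℕ)
    (ρ : ∀ i, Γ →* Module.End ℂ (W i)) (ρB : Γ →* Module.End ℂ B) (σ : Γ) (m : ℕ) :
    (MM (fun i => tot ((χ σ : ℂˣ) : ℂ) (deg i) (ρ i σ)) (ρB σ)) ^ m =
      MM (fun i => tot ((χ (σ ^ m) : ℂˣ) : ℂ) (deg i) (ρ i (σ ^ m))) (ρB (σ ^ m)) := by
  rw [MM_pow]
  congr 1
  · funext i
    rw [tot_pow, map_pow, map_pow, Units.val_pow_eq_pow_val]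
  · rw [map_pow]

/-- the Tate classes -/
theorem gal_tate {N : ℕ} (hN : 0 < N) {d n s : ι → ℕ}
    (hd : ∀ i, 2 ≤ d i) (hdN : ∀ i, d i ∣ N) (κ : Type) [Field κ] [Fintype κ] [CharP κ c] {f : ℕ}
    (hf : Fintype.card κ = c ^ f) {z : ι → κ} (hz : ∀ i, IsPrimitiveRoot (z i) (d i))
    (l : ∀ i, Fin (s i) → Fin (n i + 1) → κ) (a : ∀ i, Fin (s i) → ℕ)
    (ha : ∀ i k, (a i k).Coprime (d i)) (hsmall : Small c f N d n s a)
    {Γ : Type} [Group Γ] (χ : Γ →* ℂˣ) (σ : Γ) (hσ : ((χ σ : ℂˣ) : ℂ) = (Fintype.card κ : ℂ))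
    (ρ : ∀ i, Γ →* Module.End ℂ (W i)) (ρB : Γ →* Module.End ℂ B)
    {g : ∀ i, Module.End ℂ (W i)}
    (h : ∀ i, IsCov (d i) (l i) (a i) (z i) (ρ i σ) (g i))
    (hpure : ∀ i (α : ℂ), (ρ i σ).HasEigenvalue α → ‖α‖ ^ 2 = (Fintype.card κ : ℝ) ^ n i)
    (hB : ∀ β, (ρB σ).HasEigenvalue β →
      IsAlgebraic ℚ β ∧ ∃ j : ℕ, ‖β‖ ^ 2 = (Fintype.card κ : ℝ) ^ j)
    (hirr : Irreducible (cyclotomic N (IntermediateField.adjoin ℚ {β | (ρB σ).HasEigenvalue β})))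
    (deg : ∀ i, K i → ℕ) (Γ' : Subgroup Γ) [Γ'.FiniteIndex] (w : ℕ)
    {v : (⨂[ℂ] i, ((K i → ℂ) × W i)) ⊗[ℂ] B}
    (hv : ∀ γ ∈ Γ', MM (fun i => tot ((χ γ : ℂˣ) : ℂ) (deg i) (ρ i γ)) (ρB γ) v =
      ((χ γ : ℂˣ) : ℂ) ^ w • v) :
    v = ∑ k : ∀ i, K i, (ev k : ⨂[ℂ] i, ((K i → ℂ) × W i)) ⊗ₜ[ℂ] (cmp k v) ∧
      ∀ k : ∀ i, K i,
        (∑ i, deg i (k i) ≤ w ∧ ∀ γ ∈ Γ', ρB γ (cmp k v) =
          ((χ γ : ℂˣ) : ℂ) ^ (w - ∑ i, deg i (k i)) • cmp k v) ∨ cmp k v = 0 := by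
  obtain ⟨m, hm, hmΓ⟩ := Subgroup.exists_pow_mem_of_index_ne_zero
    (Subgroup.FiniteIndex.index_ne_zero (H := Γ')) σ
  have hm0 : 0 < m := hm
  have h1 := hv (σ ^ m) hmΓ.2
  rw [← act_pow, map_pow, Units.val_pow_eq_pow_val, hσ, ← pow_mul] at h1
  have h2 : v ∈ ((MM (fun i => tot (Fintype.card κ : ℂ) (deg i) (ρ i σ)) (ρB σ)) ^
      m).maxGenEigenspace ((Fintype.card κ : ℂ) ^ (m * w)) := by
    exact mem_gen_of_eig _ h1
  obtain ⟨h3, h4⟩ := gen_tate hN hd hdN κ hf hz l a ha hsmall h hpure hB hirr deg hm0 w h2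
  refine ⟨h3, ?_⟩
  intro k
  rcases h4 k with ⟨h5, -⟩ | h5
  · left
    refine ⟨h5, ?_⟩
    intro γ hγ
    have h6 := congrArg (cmp k) (hv γ hγ)
    rw [cmp_tot, map_smul] at h6
    have h7 : ((χ γ : ℂˣ) : ℂ) ^ (∑ i, deg i (k i)) ≠ 0 := pow_ne_zero _ (Units.ne_zero _)
    have h8 : ((χ γ : ℂˣ) : ℂ) ^ w = ((χ γ : ℂˣ) : ℂ) ^ (∑ i, deg i (k i)) *
        ((χ γ : ℂˣ) : ℂ) ^ (w - ∑ i, deg i (k i)) := by
      rw [← pow_add]
      congr 1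
      omega
    rw [h8, mul_smul] at h6
    exact smul_right_injective _ h7 h6
  · right
    exact h5

end gal

section ev

variable {ι : Type} [Fintype ι] {K W : ι → Type} [∀ i, AddCommGroup (W i)]
  [∀ i, Module ℂ (W i)] {B : Type} [AddCommGroup B] [Module ℂ B] [∀ i, DecidableEq (K i)]

/-- the operators on the products with the algebraic classes -/
theorem MM_ev (q : ℂ) (deg : ∀ i, K i → ℕ) (Φ : ∀ i, Module.End ℂ (W i)) (h : Module.End ℂ B)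
    (k : ∀ i, K i) (b : B) :
    MM (fun i => tot q (deg i) (Φ i)) h ((ev k : ⨂[ℂ] i, ((K i → ℂ) × W i)) ⊗ₜ[ℂ] b) =
      q ^ (∑ i, deg i (k i)) • ((ev k : ⨂[ℂ] i, ((K i → ℂ) × W i)) ⊗ₜ[ℂ] (h b)) := by
  have h1 : MM (fun i => tot q (deg i) (Φ i)) h
      ((ev k : ⨂[ℂ] i, ((K i → ℂ) × W i)) ⊗ₜ[ℂ] b) =
      (PiTensorProduct.map (fun i => tot q (deg i) (Φ i))
        (ev k : ⨂[ℂ] i, ((K i → ℂ) × W i))) ⊗ₜ[ℂ] (h b) := rfl
  rw [h1]
  unfold ev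
  rw [PiTensorProduct.map_tprod]
  have h2 : (fun i => tot q (deg i) (Φ i) ((Pi.single (k i) 1, 0) : (K i → ℂ) × W i)) =
      fun i => q ^ deg i (k i) • ((Pi.single (k i) 1, 0) : (K i → ℂ) × W i) := by
    funext i
    refine Prod.ext ?_ ?_
    · funext j
      show q ^ deg i j * (Pi.single (k i) (1 : ℂ) : K i → ℂ) j =
        q ^ deg i (k i) * (Pi.single (k i) (1 : ℂ) : K i → ℂ) j
      by_cases hj : j = k i
      · rw [hj]
      · rw [Pi.single_eq_of_ne hj, mul_zero, mul_zero]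
    · show Φ i 0 = q ^ deg i (k i) • (0 : W i)
      rw [map_zero, smul_zero]
  rw [h2, MultilinearMap.map_smul_univ, prod_pow_eq_pow_sum, TensorProduct.smul_tmul']

theorem MM_ev_pow (q : ℂ) (deg : ∀ i, K i → ℕ) (Φ : ∀ i, Module.End ℂ (W i))
    (h : Module.End ℂ B) (k : ∀ i, K i) (m : ℕ) (b : B) :
    ((MM (fun i => tot q (deg i) (Φ i)) h) ^ m)
        ((ev k : ⨂[ℂ] i, ((K i → ℂ) × W i)) ⊗ₜ[ℂ] b) =
      (q ^ (∑ i, deg i (k i))) ^ m •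
        ((ev k : ⨂[ℂ] i, ((K i → ℂ) × W i)) ⊗ₜ[ℂ] ((h ^ m) b)) := by
  induction m generalizing b with
  | zero => rw [pow_zero, pow_zero, pow_zero, one_smul]; rfl
  | succ m ih =>
    rw [pow_succ, Module.End.mul_apply, MM_ev, map_smul, ih, smul_smul, ← pow_succ', pow_succ h,
      Module.End.mul_apply]

/-- images of generalised eigenvectors -/
theorem gen_aux' {T B : Type} [AddCommGroup T] [Module ℂ T] [AddCommGroup B] [Module ℂ B]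
    (L : B →ₗ[ℂ] T) (F : Module.End ℂ T) (G : Module.End ℂ B) (D : ℂ)
    (hL : ∀ b, F (L b) = D • L (G b)) {ν : ℂ} {b : B} (hb : b ∈ G.maxGenEigenspace ν) :
    L b ∈ F.maxGenEigenspace (D * ν) := by
  obtain ⟨r, hr⟩ := (Module.End.mem_maxGenEigenspace G ν b).1 hb
  refine (Module.End.mem_maxGenEigenspace _ _ _).2 ⟨r, ?_⟩
  have h1 : ∀ (r : ℕ) (b : B), ((F - (D * ν) • 1) ^ r) (L b) = D ^ r • L (((G - ν • 1) ^ r) b) := by
    intro r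
    induction r with
    | zero =>
      intro b
      rw [pow_zero, pow_zero, pow_zero, one_smul, Module.End.one_apply, Module.End.one_apply]
    | succ r ih =>
      intro b
      have h2 : (F - (D * ν) • 1) (L b) = D • L ((G - ν • 1) b) := by
        rw [LinearMap.sub_apply, LinearMap.smul_apply, Module.End.one_apply, hL,
          LinearMap.sub_apply, LinearMap.smul_apply, Module.End.one_apply, map_sub, map_smul,
          smul_sub, smul_smul]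
      rw [pow_succ, Module.End.mul_apply, h2, map_smul, ih, smul_smul, ← pow_succ',
        pow_succ (G - ν • 1), Module.End.mul_apply]
  rw [h1, hr, map_zero, smul_zero]

theorem ev_gen (q : ℂ) (deg : ∀ i, K i → ℕ) (Φ : ∀ i, Module.End ℂ (W i))
    (h : Module.End ℂ B) (k : ∀ i, K i) (m : ℕ) {ν : ℂ} {b : B}
    (hb : b ∈ (h ^ m).maxGenEigenspace ν) :
    (ev k : ⨂[ℂ] i, ((K i → ℂ) × W i)) ⊗ₜ[ℂ] b ∈
      ((MM (fun i => tot q (deg i) (Φ i)) h) ^ m).maxGenEigenspace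
        ((q ^ (∑ i, deg i (k i))) ^ m * ν) := by
  have h0 : ∀ b, ((MM (fun i => tot q (deg i) (Φ i)) h) ^ m)
      ((TensorProduct.mk ℂ (⨂[ℂ] i, ((K i → ℂ) × W i)) B (ev k)) b) =
      ((q ^ (∑ i, deg i (k i))) ^ m) •
        ((TensorProduct.mk ℂ (⨂[ℂ] i, ((K i → ℂ) × W i)) B (ev k)) ((h ^ m) b)) :=
    fun b => MM_ev_pow q deg Φ h k m b
  refine gen_aux' (T := (⨂[ℂ] i, ((K i → ℂ) × W i)) ⊗[ℂ] B)
    (TensorProduct.mk ℂ (⨂[ℂ] i, ((K i → ℂ) × W i)) B (ev k)) _ _ _ ?_ hb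
  intro b
  exact h0 b

end ev

end Pool.Agent.N876.TC
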