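import Pool.Agent.N876.TC.Emb

/-!
# Products of Frobenius eigenvalues
-/

set_option autoImplicit false

namespace Pool.Agent.N876.TC

open Finset Polynomial Pool.Agent.W528.HA Pool.Agent.W528.HB

variable {c : ℕ} [Fact c.Prime]

/-- no exotic Tate classes: the arithmetic part -/
theorem no_tate {ι : Type} {N : ℕ} (hN : 0 < N) {d n s : ι → ℕ}
    (hd : ∀ i, 2 ≤ d i) (hdN : ∀ i, d i ∣ N) (κ : Type) [Field κ] [Fintype κ] [CharP κ c] {f : ℕ}
    (hf : Fintype.card κ = c ^ f) {z : ι → κ} (hz : ∀ i, IsPrimitiveRoot (z i) (d i))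
    (l : ∀ i, Fin (s i) → Fin (n i + 1) → κ) (a : ∀ i, Fin (s i) → ℕ)
    (ha : ∀ i k, (a i k).Coprime (d i)) (hsmall : Small c f N d n s a)
    {W : ι → Type} [∀ i, AddCommGroup (W i)] [∀ i, Module ℂ (W i)]
    [∀ i, FiniteDimensional ℂ (W i)] {Φ g : ∀ i, Module.End ℂ (W i)}
    (h : ∀ i, IsCov (d i) (l i) (a i) (z i) (Φ i) (g i))
    (hpure : ∀ i (α : ℂ), (Φ i).HasEigenvalue α → ‖α‖ ^ 2 = (Fintype.card κ : ℝ) ^ n i)
    {F : IntermediateField ℚ ℂ} (hF : F ≤ AA) (hirr : Irreducible (cyclotomic N F))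
    {I : Finset ι} (hI : I.Nonempty) {α : ι → ℂ} (hα : ∀ i ∈ I, (Φ i).HasEigenvalue (α i))
    {β : ℂ} (hβ : β ∈ F) {j : ℕ} (hβj : ‖β‖ ^ 2 = (Fintype.card κ : ℝ) ^ j) {e m w : ℕ}
    (hm : 0 < m)
    (heq : ((∏ i ∈ I, α i) * (Fintype.card κ : ℂ) ^ e * β) ^ m =
      (Fintype.card κ : ℂ) ^ (m * w)) : False := by
  classical
  have hq1 : (1 : ℝ) < Fintype.card κ := by exact_mod_cast Fintype.one_lt_card (α := κ)
  have hα0 : ∀ i ∈ I, α i ≠ 0 := by
    intro i hi h0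
    have h1 := hpure i _ (hα i hi)
    rw [h0, norm_zero, zero_pow two_ne_zero] at h1
    exact (pow_pos (by linarith : (0 : ℝ) < Fintype.card κ) (n i)).ne h1
  obtain ⟨hx, hfe⟩ := exists_small hN hd hdN κ hf hz l a ha hsmall h hF hirr hI hα hα0
  -- the complex absolute values
  have hw : ∑ i ∈ I, n i + 2 * e + j = 2 * w := by
    have h1 := congrArg norm heq
    rw [norm_pow, norm_mul, norm_mul, norm_pow, norm_pow, Complex.norm_natCast, pow_mul',
      norm_prod] at h1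
    have h2 := (pow_left_inj₀ (by positivity) (by positivity) hm.ne').mp h1
    have h3 := congrArg (fun t => t ^ 2) h2
    rw [mul_pow, mul_pow, hβj, ← prod_pow, prod_congr rfl fun i hi => hpure i _ (hα i hi),
      prod_pow_eq_pow_sum, ← pow_mul, ← pow_mul, ← pow_add, ← pow_add] at h3
    have h4 := pow_right_injective₀ (by linarith : (0 : ℝ) < Fintype.card κ) hq1.ne' h3
    omega
  set Q := ‖((Fintype.card κ : ℕ) : PadicAlgCl c)‖ with hQ
  have hQ0 : 0 < Q := norm_card_pos (c := c) (L := κ)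
  have hQ1 : Q < 1 := norm_card_lt (c := c) (L := κ)
  set β' : AA := ⟨β, hF hβ⟩ with hβ'
  have key : ∀ fe : AA →+* PadicAlgCl c,
      Q ^ (2 * w) < Q ^ (∑ i ∈ I, n i + 2 * e) * ‖fe β'‖ ^ 2 := by
    intro fe
    obtain ⟨fe', hfe1, hfe2⟩ := hfe fe
    have h1 : ((∏ i ∈ I.attach, (⟨α i.1, hx i.1 i.2⟩ : AA)) *
        ((Fintype.card κ : ℕ) : AA) ^ e * β') ^ m = ((Fintype.card κ : ℕ) : AA) ^ (m * w) := by
      apply Subtype.ext
      push_cast
      rw [← heq, ← prod_attach I]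
    have h2 := congrArg norm (congrArg fe' h1)
    rw [map_pow, map_mul, map_mul, map_pow, map_pow, map_natCast, map_prod, hfe1 β hβ, norm_pow,
      norm_mul, norm_mul, norm_pow, norm_pow, norm_prod, ← hQ, pow_mul'] at h2
    set P := ∏ i ∈ I.attach, ‖fe' ⟨α i.1, hx i.1 i.2⟩‖ with hP
    have hP0 : 0 ≤ P := prod_nonneg fun i _ => norm_nonneg _
    have h3 : P * Q ^ e * ‖fe β'‖ = Q ^ w :=
      (pow_left_inj₀ (mul_nonneg (mul_nonneg hP0 (pow_nonneg hQ0.le e)) (norm_nonneg _))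
        (pow_nonneg hQ0.le w) hm.ne').mp h2
    have h4 : P ^ 2 * Q ^ (2 * e) * ‖fe β'‖ ^ 2 = Q ^ (2 * w) := by
      have h5 : Q ^ (2 * w) = (Q ^ w) ^ 2 := by rw [← pow_mul, mul_comm]
      rw [h5, ← h3]
      ring
    have hβ0 : fe β' ≠ 0 := by
      rw [Ne, map_eq_zero]
      intro h0
      have h5 : β = 0 := congrArg Subtype.val h0
      rw [h5, norm_zero, zero_pow two_ne_zero] at hβj
      exact (pow_pos (by linarith : (0 : ℝ) < Fintype.card κ) j).ne hβj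
    rw [← h4, pow_add]
    have h5 : 0 < ‖fe β'‖ ^ 2 := by positivity
    have h6 : 0 < Q ^ (2 * e) := by positivity
    exact mul_lt_mul_of_pos_right (mul_lt_mul_of_pos_right hfe2 h6) h5
  -- some embedding
  obtain ⟨fe⟩ : Nonempty (AA →+* PadicAlgCl c) := by
    obtain ⟨φ, _⟩ := Pool.Agent.W346.HA.EM.main ℂ (PadicAlgCl c) 1 1 1 one_pos
      IsPrimitiveRoot.one IsPrimitiveRoot.one
    exact ⟨φ⟩
  have k1 := key fe
  have k2 := key (fe.comp cj)
  have h1 : ‖fe β'‖ * ‖(fe.comp cj) β'‖ = Q ^ j := by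
    rw [← norm_mul, RingHom.comp_apply, ← map_mul]
    have h2 : β' * cj β' = ((Fintype.card κ : ℕ) : AA) ^ j := by
      apply Subtype.ext
      push_cast
      show β * starRingEnd ℂ β = _
      rw [Complex.mul_conj, Complex.normSq_eq_norm_sq, hβj]
      push_cast
      rfl
    rw [h2, map_pow, map_natCast, norm_pow]
  have h2 := mul_lt_mul'' k1 k2 (pow_nonneg hQ0.le _) (pow_nonneg hQ0.le _)
  have h3 : Q ^ (∑ i ∈ I, n i + 2 * e) * ‖fe β'‖ ^ 2 *
      (Q ^ (∑ i ∈ I, n i + 2 * e) * ‖(fe.comp cj) β'‖ ^ 2) =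
      Q ^ (2 * (∑ i ∈ I, n i + 2 * e + j)) := by
    have h4 : Q ^ (2 * (∑ i ∈ I, n i + 2 * e + j)) =
        Q ^ (∑ i ∈ I, n i + 2 * e) * Q ^ (∑ i ∈ I, n i + 2 * e) * (Q ^ j) ^ 2 := by
      rw [← pow_add, ← pow_mul, ← pow_add]
      congr 1
      ring
    rw [h4, ← h1]
    ring
  rw [h3, ← pow_add, hw] at h2
  have h5 : 2 * w + 2 * w = 2 * (2 * w) := by ring
  rw [h5] at h2
  exact lt_irrefl _ h2

end Pool.Agent.N876.TC
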