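import Pool.Agent.N876.TC.Ten

/-!
# Components of tensors with respect to the algebraic classes
-/

set_option autoImplicit false

namespace Pool.Agent.N876.TC

open Finset Polynomial TensorProduct

variable {E : Type} [Field E] {ι : Type} [Fintype ι] {K W : ι → Type}
  [∀ i, AddCommGroup (W i)] [∀ i, Module E (W i)] {B : Type} [AddCommGroup B] [Module E B]

/-- the product of the algebraic classes with the indices `k i` -/
noncomputable def ev [∀ i, DecidableEq (K i)] (k : ∀ i, K i) : ⨂[E] i, ((K i → E) × W i) :=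
  ⨂ₜ[E] i, ((Pi.single (k i) 1, 0) : (K i → E) × W i)

/-- the coordinate -/
noncomputable def co (k : ∀ i, K i) : (⨂[E] i, ((K i → E) × W i)) →ₗ[E] E :=
  PiTensorProduct.lift ((MultilinearMap.mkPiAlgebra E ι E).compLinearMap fun i =>
    (LinearMap.proj (k i)) ∘ₗ (LinearMap.fst E (K i → E) (W i)))

theorem co_tprod (k : ∀ i, K i) (x : ∀ i, (K i → E) × W i) :
    co k (⨂ₜ[E] i, x i) = ∏ i, (x i).1 (k i) := by
  unfold co
  rw [PiTensorProduct.lift.tprod]
  rfl

/-- the component -/
noncomputable def cmp (k : ∀ i, K i) : ((⨂[E] i, ((K i → E) × W i)) ⊗[E] B) →ₗ[E] B :=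
  (TensorProduct.lid E B : E ⊗[E] B →ₗ[E] B) ∘ₗ TensorProduct.map (co k) LinearMap.id

theorem cmp_tmul (k : ∀ i, K i) (t : ⨂[E] i, ((K i → E) × W i)) (b : B) :
    cmp k (t ⊗ₜ[E] b) = co k t • b := by
  unfold cmp
  rw [LinearMap.comp_apply, TensorProduct.map_tmul]
  exact TensorProduct.lid_tmul _ _

theorem co_tot (q : E) (deg : ∀ i, K i → ℕ) (Φ : ∀ i, Module.End E (W i)) (k : ∀ i, K i)
    (t : ⨂[E] i, ((K i → E) × W i)) :
    co k (PiTensorProduct.map (fun i => tot q (deg i) (Φ i)) t) =
      q ^ (∑ i, deg i (k i)) * co k t := by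
  induction t using PiTensorProduct.induction_on with
  | smul_tprod r x =>
    rw [map_smul, map_smul, map_smul, PiTensorProduct.map_tprod, co_tprod, co_tprod, smul_eq_mul,
      smul_eq_mul]
    have h1 : ∏ i, (tot q (deg i) (Φ i) (x i)).1 (k i) =
        q ^ (∑ i, deg i (k i)) * ∏ i, (x i).1 (k i) := by
      rw [← prod_pow_eq_pow_sum, ← prod_mul_distrib]
      exact prod_congr rfl fun i _ => rfl
    rw [h1]
    ring
  | add x y hx hy =>
    rw [map_add, map_add, map_add, hx, hy, mul_add]

theorem cmp_tot (q : E) (deg : ∀ i, K i → ℕ) (Φ : ∀ i, Module.End E (W i)) (h : Module.End E B)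
    (k : ∀ i, K i) (v : (⨂[E] i, ((K i → E) × W i)) ⊗[E] B) :
    cmp k (MM (fun i => tot q (deg i) (Φ i)) h v) =
      q ^ (∑ i, deg i (k i)) • h (cmp k v) := by
  induction v using TensorProduct.induction_on with
  | zero => rw [map_zero, map_zero, map_zero, smul_zero]
  | tmul t b =>
    have h1 : MM (fun i => tot q (deg i) (Φ i)) h (t ⊗ₜ[E] b) =
        (PiTensorProduct.map (fun i => tot q (deg i) (Φ i)) t) ⊗ₜ[E] (h b) := rfl
    rw [h1, cmp_tmul, cmp_tmul, co_tot, map_smul, smul_smul]
  | add x y hx hy =>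
    rw [map_add, map_add, map_add, map_add, smul_add, hx, hy]

variable [∀ i, Fintype (K i)] [∀ i, DecidableEq (K i)]

theorem map_prj [DecidableEq ι] (t : ⨂[E] i, ((K i → E) × W i)) :
    PiTensorProduct.map (fun i => (prj : Module.End E ((K i → E) × W i))) t =
      ∑ k : ∀ i, K i, co k t • (ev k : ⨂[E] i, ((K i → E) × W i)) := by
  induction t using PiTensorProduct.induction_on with
  | smul_tprod r x =>
    rw [map_smul, PiTensorProduct.map_tprod]
    have h1 : (fun i => (prj : Module.End E ((K i → E) × W i)) (x i)) =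
        fun i => ∑ j : K i, (x i).1 j • ((Pi.single j 1, 0) : (K i → E) × W i) := by
      funext i
      refine Prod.ext ?_ ?_
      · show (x i).1 = (∑ j : K i, (x i).1 j • ((Pi.single j 1, 0) : (K i → E) × W i)).1
        rw [Prod.fst_sum]
        conv_lhs => rw [← Finset.univ_sum_single (x i).1]
        refine sum_congr rfl fun j _ => ?_
        show _ = (x i).1 j • (Pi.single j (1 : E) : K i → E)
        rw [← Pi.single_smul, smul_eq_mul, mul_one]
      · show 0 = (∑ j : K i, (x i).1 j • ((Pi.single j 1, 0) : (K i → E) × W i)).2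
        rw [Prod.snd_sum]
        symm
        refine sum_eq_zero fun j _ => ?_
        show (x i).1 j • (0 : W i) = 0
        rw [smul_zero]
    rw [h1, (PiTensorProduct.tprod E).map_sum, smul_sum]
    refine sum_congr rfl fun k _ => ?_
    rw [MultilinearMap.map_smul_univ, map_smul, co_tprod, smul_smul]
    rfl
  | add x y hx hy =>
    rw [map_add, hx, hy, ← sum_add_distrib]
    exact sum_congr rfl fun k _ => by rw [map_add, add_smul]

theorem MM_prj [DecidableEq ι] (v : (⨂[E] i, ((K i → E) × W i)) ⊗[E] B) :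
    MM (fun i => (prj : Module.End E ((K i → E) × W i))) 1 v =
      ∑ k : ∀ i, K i, (ev k : ⨂[E] i, ((K i → E) × W i)) ⊗ₜ[E] (cmp k v) := by
  induction v using TensorProduct.induction_on with
  | zero =>
    rw [map_zero]
    symm
    refine sum_eq_zero fun k _ => ?_
    rw [map_zero, TensorProduct.tmul_zero]
  | tmul t b =>
    have h1 : MM (fun i => (prj : Module.End E ((K i → E) × W i))) 1 (t ⊗ₜ[E] b) =
        (PiTensorProduct.map (fun i => (prj : Module.End E ((K i → E) × W i))) t) ⊗ₜ[E] b := rfl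
    rw [h1, map_prj, TensorProduct.sum_tmul]
    refine sum_congr rfl fun k _ => ?_
    rw [cmp_tmul, TensorProduct.smul_tmul]
  | add x y hx hy =>
    rw [map_add, hx, hy, ← sum_add_distrib]
    exact sum_congr rfl fun k _ => by rw [map_add, TensorProduct.tmul_add]

end Pool.Agent.N876.TC
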