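import Pool.Agent.N876.TC.Fac

/-!
# Embeddings of the algebraic numbers, and products of Frobenius eigenvalues
-/

set_option autoImplicit false

namespace Pool.Agent.N876.TC

open Finset Polynomial Pool.Agent.W528.HA Pool.Agent.W528.HB

/-- the field of algebraic numbers -/
noncomputable abbrev AA : IntermediateField ℚ ℂ := algebraicClosure ℚ ℂ

theorem emb {F : IntermediateField ℚ ℂ} (hF : F ≤ AA) {N : ℕ} (hN : 0 < N)
    (hirr : Irreducible (cyclotomic N F)) {K : Type} [Field K] [IsAlgClosed K] [CharZero K]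
    (fe : AA →+* K) {ζ : AA} (hζ : IsPrimitiveRoot ζ N) {u : ℕ} (hu : u.Coprime N) :
    ∃ fe' : AA →+* K, (∀ x (hx : x ∈ F), fe' ⟨x, hF hx⟩ = fe ⟨x, hF hx⟩) ∧
      fe' ζ = fe ζ ^ u := by
  let i : F →+* AA := (IntermediateField.inclusion hF : F →+* AA)
  letI : Algebra F AA := i.toAlgebra
  letI : Algebra F K := (fe.comp i).toAlgebra
  have halg : ∀ t : AA, IsAlgebraic F t := by
    intro t
    have h1 : IsAlgebraic ℚ (t : ℂ) := mem_algebraicClosure_iff.mp t.2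
    obtain ⟨P, hP, hP0⟩ := h1
    refine ⟨P.map (algebraMap ℚ F), ?_, ?_⟩
    · exact (Polynomial.map_ne_zero_iff (algebraMap ℚ F).injective).mpr hP
    · apply Subtype.ext
      rw [aeval_def, eval₂_map]
      have h2 : (algebraMap F AA).comp (algebraMap ℚ F) = algebraMap ℚ AA :=
        Subsingleton.elim _ _
      rw [h2]
      have h3 := Polynomial.hom_eval₂ P (algebraMap ℚ AA) (algebraMap AA ℂ) t
      have h4 : (algebraMap AA ℂ).comp (algebraMap ℚ AA) = algebraMap ℚ ℂ :=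
        Subsingleton.elim _ _
      rw [h4] at h3
      show algebraMap AA ℂ _ = _
      rw [h3]
      exact hP0
  have hNF : NeZero ((N : ℕ) : F) := ⟨by exact_mod_cast hN.ne'⟩
  have hmin : cyclotomic N F = minpoly F ζ := hζ.minpoly_eq_cyclotomic_of_irreducible hirr
  have hprim : IsPrimitiveRoot (fe ζ ^ u) N :=
    (hζ.map_of_injective fe.injective).pow_of_coprime u hu
  obtain ⟨φ, hφ⟩ := IntermediateField.exists_algHom_of_splits_of_aeval (F := F) (E := AA) (K := K)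
    (x := ζ) (y := fe ζ ^ u)
    (fun s => ⟨(halg s).isIntegral, IsAlgClosed.splits _⟩) (by
      rw [← hmin]
      have h1 := hprim.isRoot_cyclotomic hN
      rw [Polynomial.IsRoot.def] at h1
      rw [aeval_def, ← eval_map, map_cyclotomic]
      exact h1)
  refine ⟨(φ : AA →+* K), ?_, hφ⟩
  intro x hx
  have h1 := φ.commutes (⟨x, hx⟩ : F)
  exact h1

/-- complex conjugation -/
noncomputable def cj : AA →+* AA where
  toFun x := ⟨starRingEnd ℂ x.1, by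
    have h1 : IsAlgebraic ℚ x.1 := mem_algebraicClosure_iff.mp x.2
    refine mem_algebraicClosure_iff.mpr ?_
    exact h1.algHom ((Complex.conjAe.toAlgHom).restrictScalars ℚ)⟩
  map_one' := by
    apply Subtype.ext
    exact map_one (starRingEnd ℂ)
  map_mul' x y := by
    apply Subtype.ext
    exact map_mul (starRingEnd ℂ) x.1 y.1
  map_zero' := by
    apply Subtype.ext
    exact map_zero (starRingEnd ℂ)
  map_add' x y := by
    apply Subtype.ext
    exact map_add (starRingEnd ℂ) x.1 y.1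

variable {c : ℕ} [Fact c.Prime]

/-- the lift of a root of unity -/
theorem exists_Om {N : ℕ} (hN : 2 ≤ N) {κ : Type} [Field κ] [Fintype κ] [CharP κ c] {f : ℕ}
    (hf : Fintype.card κ = c ^ f) {z : κ} (hz : IsPrimitiveRoot z N)
    {k : Type} [Field k] [CharP k c] {R : Subring (PadicAlgCl c)} {res : R →+* k}
    (hR : IsRes c R res) (eκ : κ →+* k) :
    ∃ Ω : PadicAlgCl c, IsPrimitiveRoot Ω N ∧ ∃ h : Ω ∈ R, res ⟨Ω, h⟩ = eκ z := by
  have hf0 : 0 < f := by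
    rcases Nat.eq_zero_or_pos f with h | h
    · rw [h, pow_zero] at hf
      have := Fintype.one_lt_card (α := κ)
      omega
    · exact h
  have hNf : N ∣ c ^ f - 1 := by
    rw [← hf]
    exact dvd_card_of_root hz (by omega)
  have hNk : (N : k) ≠ 0 := natCast_ne_zero_of_dvd hNf hf0
  obtain ⟨Ω0, hΩ0⟩ : ∃ ζ : PadicAlgCl c, IsPrimitiveRoot ζ N := by
    have : NeZero ((N : ℕ) : PadicAlgCl c) := ⟨by exact_mod_cast (by omega : N ≠ 0)⟩
    exact HasEnoughRootsOfUnity.exists_primitiveRoot (PadicAlgCl c) N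
  have hΩ0R : Ω0 ∈ R := (hR.1 Ω0).mpr (norm_pow_one (by omega) hΩ0.pow_eq_one).le
  have hres0 : IsPrimitiveRoot (res ⟨Ω0, hΩ0R⟩) N := by
    have : NeZero ((N : ℕ) : k) := ⟨hNk⟩
    rw [← Polynomial.isRoot_cyclotomic_iff]
    have h1 : (Polynomial.cyclotomic N R).IsRoot ⟨Ω0, hΩ0R⟩ := by
      have h2 : (Polynomial.cyclotomic N (PadicAlgCl c)).IsRoot Ω0 :=
        hΩ0.isRoot_cyclotomic (by omega)
      rw [Polynomial.IsRoot.def] at h2 ⊢
      apply Subtype.ext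
      have h3 := Polynomial.eval₂_hom R.subtype (p := Polynomial.cyclotomic N R) ⟨Ω0, hΩ0R⟩
      rw [← Polynomial.eval_map, Polynomial.map_cyclotomic] at h3
      change R.subtype _ = R.subtype 0
      rw [← h3, map_zero]
      exact h2
    have h2 := h1.map (f := res)
    rwa [Polynomial.map_cyclotomic] at h2
  obtain ⟨i, hiN, hi⟩ : ∃ i < N, res ⟨Ω0, hΩ0R⟩ ^ i = eκ z := by
    have : NeZero N := ⟨by omega⟩
    exact hres0.eq_pow_of_pow_eq_one (by rw [← map_pow, hz.pow_eq_one, map_one])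
  have hico : i.Coprime N := by
    have h1 : IsPrimitiveRoot (res ⟨Ω0, hΩ0R⟩ ^ i) N := by
      rw [hi]
      exact hz.map_of_injective eκ.injective
    exact (hres0.pow_iff_coprime (by omega) i).mp h1
  refine ⟨Ω0 ^ i, hΩ0.pow_of_coprime i hico, R.pow_mem hΩ0R i, ?_⟩
  rw [← hi, ← map_pow]
  rfl

/-- the condition on the exponents -/
def Small {ι : Type} (c f N : ℕ) (d n s : ι → ℕ) (a : ∀ i, Fin (s i) → ℕ) : Prop :=
  ∀ (I : Finset ι), I.Nonempty → ∀ j : ι → ℕ, (∀ i ∈ I, ¬ d i ∣ j i) →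
    ∃ u : ℕ, u.Coprime N ∧
      2 * ∑ i ∈ I, (N / d i) * ∑ k, ∑ t ∈ range f, (u * j i * a i k * c ^ t) % d i
        < f * N * ∑ i ∈ I, (n i + 2)

/-- an embedding for which all the eigenvalues are small -/
theorem exists_small {ι : Type} {N : ℕ} (hN : 0 < N) {d n s : ι → ℕ}
    (hd : ∀ i, 2 ≤ d i) (hdN : ∀ i, d i ∣ N) (κ : Type) [Field κ] [Fintype κ] [CharP κ c] {f : ℕ}
    (hf : Fintype.card κ = c ^ f) {z : ι → κ} (hz : ∀ i, IsPrimitiveRoot (z i) (d i))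
    (l : ∀ i, Fin (s i) → Fin (n i + 1) → κ) (a : ∀ i, Fin (s i) → ℕ)
    (ha : ∀ i k, (a i k).Coprime (d i)) (hsmall : Small c f N d n s a)
    {W : ι → Type} [∀ i, AddCommGroup (W i)] [∀ i, Module ℂ (W i)]
    [∀ i, FiniteDimensional ℂ (W i)] {Φ g : ∀ i, Module.End ℂ (W i)}
    (h : ∀ i, IsCov (d i) (l i) (a i) (z i) (Φ i) (g i))
    {F : IntermediateField ℚ ℂ} (hF : F ≤ AA) (hirr : Irreducible (cyclotomic N F))
    {I : Finset ι} (hI : I.Nonempty) {α : ι → ℂ} (hα : ∀ i ∈ I, (Φ i).HasEigenvalue (α i))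
    (hα0 : ∀ i ∈ I, α i ≠ 0) :
    ∃ hx : ∀ i ∈ I, α i ∈ AA, ∀ fe : AA →+* PadicAlgCl c, ∃ fe' : AA →+* PadicAlgCl c,
      (∀ x (hx : x ∈ F), fe' ⟨x, hF hx⟩ = fe ⟨x, hF hx⟩) ∧
      (∏ i ∈ I.attach, ‖fe' ⟨α i.1, hx i.1 i.2⟩‖) ^ 2 <
        ‖((Fintype.card κ : ℕ) : PadicAlgCl c)‖ ^ (∑ i ∈ I, n i) := by
  classical
  obtain ⟨k, _, R, res, _, _, hR⟩ := Pool.Agent.W999.HB.TP.main c
  have _ : Algebra (ZMod c) κ := ZMod.algebra κ c
  have _ : Algebra (ZMod c) k := ZMod.algebra k c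
  have hκk : Nonempty (κ →ₐ[ZMod c] k) := ⟨IsAlgClosed.lift⟩
  obtain ⟨eκ'⟩ := hκk
  set eκ : κ →+* k := (eκ' : κ →+* k)
  have hOm : ∀ i, ∃ Ω : PadicAlgCl c, IsPrimitiveRoot Ω (d i) ∧
      ∃ h : Ω ∈ R, res ⟨Ω, h⟩ = eκ (z i) := fun i => exists_Om (hd i) hf (hz i) hR eκ
  choose Ω hΩ hΩz using hOm
  have hcs := fun (i : ι) (hi : i ∈ I) => cov_slope (hd i) κ hf (hz i) hR eκ (hΩ i) (hΩz i) (l i)
    (a i) (ha i) (h i) (hα i hi) (hα0 i hi)
  choose hx μ hμ1 hμ2 hμ3 using hcs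
  refine ⟨hx, ?_⟩
  intro fe
  -- the exponents
  have hj : ∀ i (hi : i ∈ I), ∃ j : ℕ, ¬ d i ∣ j ∧ fe (μ i hi) = Ω i ^ j := by
    intro i hi
    have : NeZero (d i) := ⟨by have := hd i; omega⟩
    obtain ⟨j, _, hj⟩ := (hΩ i).eq_pow_of_pow_eq_one (ξ := fe (μ i hi))
      (by rw [← map_pow, hμ1, map_one])
    refine ⟨j, ?_, hj.symm⟩
    intro h0
    apply hμ2 i hi
    apply fe.injective
    rw [← hj, map_one]
    exact ((hΩ i).pow_eq_one_iff_dvd j).mpr h0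
  choose j0 hj0 hj1 using hj
  set j : ι → ℕ := fun i => if hi : i ∈ I then j0 i hi else 0 with hjdef
  have hjI : ∀ i (hi : i ∈ I), j i = j0 i hi := by
    intro i hi
    simp only [hjdef]
    rw [dif_pos hi]
  obtain ⟨u, hu, hlt⟩ := hsmall I hI j (fun i hi => by rw [hjI i hi]; exact hj0 i hi)
  -- a primitive root
  obtain ⟨ζ, hζ⟩ : ∃ ζ : AA, IsPrimitiveRoot ζ N := by
    have h1 := Complex.isPrimitiveRoot_exp N hN.ne'
    have h2 : IsAlgebraic ℚ (Complex.exp (2 * Real.pi * Complex.I / N)) := by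
      have h3 : IsIntegral ℤ (Complex.exp (2 * Real.pi * Complex.I / N)) := h1.isIntegral hN
      exact (h3.tower_top (A := ℚ)).isAlgebraic
    refine ⟨⟨_, mem_algebraicClosure_iff.mpr h2⟩, ?_⟩
    exact IsPrimitiveRoot.of_map_of_injective (f := algebraMap AA ℂ) h1
      (algebraMap AA ℂ).injective
  obtain ⟨fe', hfe1, hfe2⟩ := emb hF hN hirr fe hζ hu
  refine ⟨fe', hfe1, ?_⟩
  have hμ' : ∀ i (hi : i ∈ I), fe' (μ i hi) = Ω i ^ (u * j i) := by
    intro i hi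
    have : NeZero N := ⟨hN.ne'⟩
    obtain ⟨t, _, ht⟩ := hζ.eq_pow_of_pow_eq_one (ξ := μ i hi) (by
      obtain ⟨v, hv⟩ := hdN i
      rw [hv, pow_mul, hμ1, one_pow])
    have h1 : fe' (μ i hi) = fe (μ i hi) ^ u := by
      rw [← ht, map_pow, map_pow, hfe2, ← pow_mul, ← pow_mul, mul_comm]
    rw [h1, hj1 i hi, ← pow_mul, hjI i hi, mul_comm]
  have hnd : ∀ i (hi : i ∈ I), ¬ d i ∣ u * j i := by
    intro i hi h0
    have h1 : (d i).Coprime u := (Nat.Coprime.coprime_dvd_right (hdN i) hu).symm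
    rw [hjI i hi] at h0
    exact hj0 i hi (h1.dvd_of_dvd_mul_left h0)
  have hest := fun i (hi : i ∈ I) => hμ3 i hi fe' (u * j i) (hnd i hi) (hμ' i hi)
  set ρ := ‖((c : ℕ) : PadicAlgCl c)‖ with hρ
  have hρ0 : 0 < ρ := norm_c_pos
  have hρ1 : ρ < 1 := norm_c_lt
  set A : ι → ℕ := fun i => ∑ k, ∑ t ∈ range f, (u * j i * a i k * c ^ t) % d i with hAdef
  set P := ∏ i ∈ I.attach, ‖fe' ⟨α i.1, hx i.1 i.2⟩‖ with hP
  have hP0 : 0 ≤ P := prod_nonneg fun i _ => norm_nonneg _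
  have h1 : P ^ N * ρ ^ (∑ i ∈ I, (N / d i) * A i) ≤ ρ ^ (∑ i ∈ I, f * (n i + 1) * N) := by
    rw [hP, ← prod_pow, ← prod_pow_eq_pow_sum, ← prod_pow_eq_pow_sum,
      ← prod_attach I (fun i => ρ ^ ((N / d i) * A i)),
      ← prod_attach I (fun i => ρ ^ (f * (n i + 1) * N)), ← prod_mul_distrib]
    apply prod_le_prod
    · intro i _
      exact mul_nonneg (pow_nonneg (norm_nonneg _) _) (pow_nonneg hρ0.le _)
    · intro i _
      have h2 := pow_le_pow_left₀ (mul_nonneg (pow_nonneg (norm_nonneg _) _)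
        (pow_nonneg hρ0.le _)) (hest i.1 i.2) (N / d i.1)
      have h3 : d i.1 * (N / d i.1) = N := Nat.mul_div_cancel' (hdN i.1)
      rw [mul_pow, ← pow_mul, ← pow_mul, ← pow_mul, h3] at h2
      have h4 : f * (n i.1 + 1) * d i.1 * (N / d i.1) = f * (n i.1 + 1) * N := by
        rw [mul_assoc _ (d i.1), h3]
      rw [h4] at h2
      rw [mul_comm (N / d i.1)]
      exact h2
  have hq : ‖((Fintype.card κ : ℕ) : PadicAlgCl c)‖ = ρ ^ f := by
    rw [hf]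
    push_cast
    rw [norm_pow]
  rw [hq, ← pow_mul]
  set B := ∑ i ∈ I, (N / d i) * A i with hB
  have h5 : ∑ i ∈ I, f * (n i + 1) * N = f * N * ∑ i ∈ I, (n i + 1) := by
    rw [mul_sum]
    exact sum_congr rfl fun i _ => by ring
  have h6 : ∑ i ∈ I, (n i + 2) + ∑ i ∈ I, n i = 2 * ∑ i ∈ I, (n i + 1) := by
    rw [← sum_add_distrib, mul_sum]
    exact sum_congr rfl fun i _ => by ring
  have h7 : (P ^ 2) ^ N * ρ ^ (2 * B) ≤ ρ ^ (2 * (f * N * ∑ i ∈ I, (n i + 1))) := by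
    have h8 := pow_le_pow_left₀ (mul_nonneg (pow_nonneg hP0 _) (pow_nonneg hρ0.le _)) h1 2
    rw [mul_pow, ← pow_mul, ← pow_mul, ← pow_mul, h5, mul_comm N 2, pow_mul, mul_comm B 2,
      mul_comm _ 2] at h8
    exact h8
  have h9 : 2 * (f * N * ∑ i ∈ I, (n i + 1)) = f * N * ∑ i ∈ I, (n i + 2) + f * N * ∑ i ∈ I, n i := by
    rw [← mul_add, h6]
    ring
  rw [h9, pow_add] at h7
  have h10 : ρ ^ (f * N * ∑ i ∈ I, (n i + 2)) < ρ ^ (2 * B) :=
    pow_lt_pow_right_of_lt_one₀ hρ0 hρ1 hlt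
  have h11 : (P ^ 2) ^ N * ρ ^ (2 * B) < ρ ^ (2 * B) * ρ ^ (f * N * ∑ i ∈ I, n i) :=
    lt_of_le_of_lt h7 (mul_lt_mul_of_pos_right h10 (pow_pos hρ0 _))
  have h12 : (P ^ 2) ^ N < (ρ ^ (f * ∑ i ∈ I, n i)) ^ N := by
    rw [mul_comm (ρ ^ (2 * B))] at h11
    have h13 := lt_of_mul_lt_mul_right h11 (pow_nonneg hρ0.le _)
    have h14 : f * N * ∑ i ∈ I, n i = f * (∑ i ∈ I, n i) * N := by ring
    rw [h14, pow_mul ρ _ N] at h13
    exact h13
  exact lt_of_pow_lt_pow_left₀ N (pow_nonneg hρ0.le _) h12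

end Pool.Agent.N876.TC
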