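import Pool.Agent.N876.TC.Slope

/-!
# The trace formula of a cyclic covering branched along hyperplanes
-/

set_option autoImplicit false

namespace Pool.Agent.N876.TC

open Finset Polynomial Pool.Agent.W528.HA Pool.Agent.W528.HB

section defs

variable {κ : Type} [Field κ]

/-- the value of the product of the linear forms -/
def val (L : Type) [Field L] [Algebra κ L] {s n : ℕ} (l : Fin s → Fin (n + 1) → κ) (a : Fin s → ℕ)
    (x : Fin (n + 1) → L) : L :=
  ∏ k, (∑ t, algebraMap κ L (l k t) * x t) ^ a k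

noncomputable def openCount (L : Type) [Field L] [Algebra κ L] {s n : ℕ}
    (l : Fin s → Fin (n + 1) → κ) (a : Fin s → ℕ) : ℕ :=
  Set.ncard {x : Fin (n + 1) → L | val L l a x ≠ 0}

noncomputable def fixCount (L : Type) [Field L] [Fintype L] [Algebra κ L] {s n : ℕ}
    (l : Fin s → Fin (n + 1) → κ) (a : Fin s → ℕ) (N : ℕ) (z : κ) (i : ℕ) : ℕ :=
  Set.ncard {x : Fin (n + 1) → L | val L l a x ≠ 0 ∧
    (val L l a x) ^ ((Fintype.card L - 1) / N) = algebraMap κ L z ^ i}

/-- the trace formula -/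
structure IsCov (N : ℕ) {s n : ℕ} (l : Fin s → Fin (n + 1) → κ) (a : Fin s → ℕ) (z : κ)
    {E W : Type} [Field E] [AddCommGroup W] [Module E W] (Φ g : Module.End E W) : Prop where
  comm : Commute Φ g
  order : g ^ N = 1
  inv : ∀ w, g w = w → w = 0
  lef : ∀ (L : Type) [Field L] [Fintype L] [Algebra κ L] (i : ℕ),
    ((Fintype.card L : E) - 1) *
        ((-1) ^ n * LinearMap.trace E W (Φ ^ Module.finrank κ L * g ^ i)) =
      (N : E) * (fixCount L l a N z i : E) - (openCount L l a : E)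

end defs

theorem sum_fix {κ L E : Type} [Field κ] [Field L] [Fintype L] [Algebra κ L] [Field E]
    {N : ℕ} (hN : 0 < N) {s n : ℕ} (l : Fin s → Fin (n + 1) → κ) (a : Fin s → ℕ) {z : κ}
    (hz : IsPrimitiveRoot z N) (ω : E) :
    ∑ i ∈ range N, ω ^ i * (fixCount L l a N z i : E) =
      kummerSum L E N (n + 1) (fun i k => algebraMap κ L (l i k)) a (algebraMap κ L z) ω := by
  classical
  have hzL : IsPrimitiveRoot (algebraMap κ L z) N :=
    hz.map_of_injective (algebraMap κ L).injective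
  have hd := dvd_card_of_root hzL hN
  have hQ := Fintype.one_lt_card (α := L)
  have hu : (Fintype.card L - 1) / N ≠ 0 := by
    have := Nat.div_pos (Nat.le_of_dvd (by omega) hd) hN
    omega
  have h1 : ∀ i, (fixCount L l a N z i : E) = ∑ x : Fin (n + 1) → L,
      if (val L l a x) ^ ((Fintype.card L - 1) / N) = algebraMap κ L z ^ i then 1 else 0 := by
    intro i
    unfold fixCount
    rw [Finset.sum_boole, Set.ncard_eq_toFinset_card']
    congr 2
    ext x
    simp only [Set.mem_toFinset, Set.mem_ofPred_eq, mem_filter, mem_univ, true_and]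
    constructor
    · exact fun h => h.2
    · intro h
      refine ⟨?_, h⟩
      intro h0
      rw [h0, zero_pow hu] at h
      exact pow_ne_zero i (hzL.ne_zero (by omega)) h.symm
  unfold kummerSum kv
  rw [Finset.sum_comm]
  refine sum_congr rfl fun i _ => ?_
  rw [h1, mul_sum]
  refine sum_congr rfl fun x _ => ?_
  unfold val
  split_ifs with h2
  · rw [mul_one]
  · rw [mul_zero]

/-- the trace formula on the eigenspaces -/
theorem trace_kum {κ : Type} [Field κ] {N : ℕ} (hN : 0 < N) {s n : ℕ}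
    {l : Fin s → Fin (n + 1) → κ} {a : Fin s → ℕ} {z : κ} (hz : IsPrimitiveRoot z N)
    {E W : Type} [Field E] [CharZero E] [AddCommGroup W] [Module E W] [FiniteDimensional E W]
    {Φ g : Module.End E W} (h : IsCov N l a z Φ g) {ω : E} (hω : ω ^ N = 1) (hω1 : ω ≠ 1)
    (L : Type) [Field L] [Fintype L] [Algebra κ L] :
    ((Fintype.card L : E) - 1) * ((-1) ^ n * LinearMap.trace E _
        ((Φ.restrict (Pool.Agent.TH117.HS.mapsTo_eig h.comm ω)) ^ Module.finrank κ L)) =
      kummerSum L E N (n + 1) (fun i k => algebraMap κ L (l i k)) a (algebraMap κ L z) ω⁻¹ := by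
  classical
  have h1 := Pool.Agent.TH117.HS.trace_eig h.comm hN h.order hω (Module.finrank κ L)
  have hω0 : ω⁻¹ ≠ 1 := fun h0 => hω1 (inv_eq_one.1 h0)
  have h0 : ∑ i ∈ range N, (ω⁻¹) ^ i = 0 := by
    have h2 := mul_geom_sum (ω⁻¹) N
    rw [inv_pow, hω, inv_one, sub_self] at h2
    exact (mul_eq_zero.1 h2).resolve_left (sub_ne_zero.2 hω0)
  have hNE : (N : E) ≠ 0 := by exact_mod_cast hN.ne'
  apply mul_left_cancel₀ hNE
  rw [← sum_fix hN l a hz ω⁻¹]
  calc (N : E) * (((Fintype.card L : E) - 1) * ((-1) ^ n * LinearMap.trace E _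
        ((Φ.restrict (Pool.Agent.TH117.HS.mapsTo_eig h.comm ω)) ^ Module.finrank κ L)))
      = ((Fintype.card L : E) - 1) * ((-1) ^ n * ((N : E) * LinearMap.trace E _
        ((Φ.restrict (Pool.Agent.TH117.HS.mapsTo_eig h.comm ω)) ^ Module.finrank κ L))) := by ring
    _ = ∑ i ∈ range N, (ω⁻¹) ^ i * (((Fintype.card L : E) - 1) * ((-1) ^ n *
          LinearMap.trace E W (Φ ^ Module.finrank κ L * g ^ i))) := by
        rw [h1, mul_sum, mul_sum]
        exact sum_congr rfl fun i _ => by ring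
    _ = ∑ i ∈ range N, ((N : E) * ((ω⁻¹) ^ i * (fixCount L l a N z i : E))
          + (ω⁻¹) ^ i * (-(openCount L l a : E))) :=
        sum_congr rfl fun i _ => by rw [h.lef L i]; ring
    _ = _ := by
        rw [sum_add_distrib, ← sum_mul, h0, zero_mul, add_zero, mul_sum]

/-- a simultaneous eigenvector -/
theorem exists_eig {E W : Type} [Field E] [IsAlgClosed E] [AddCommGroup W] [Module E W]
    [FiniteDimensional E W] {Φ g : Module.End E W} (hc : Commute Φ g) {α : E}
    (hα : Φ.HasEigenvalue α) : ∃ (ω : E) (w : W), w ≠ 0 ∧ Φ w = α • w ∧ g w = ω • w := by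
  obtain ⟨w, hw⟩ := hα.exists_hasEigenvector
  have hmap : ∀ v ∈ Φ.eigenspace α, g v ∈ Φ.eigenspace α := by
    intro v hv
    rw [Module.End.mem_eigenspace_iff] at hv ⊢
    have h12 : Φ (g v) = g (Φ v) := by
      rw [← Module.End.mul_apply, hc.eq, Module.End.mul_apply]
    rw [h12, hv, map_smul]
  have hnt : Nontrivial (Φ.eigenspace α) :=
    ⟨⟨⟨w, hw.1⟩, 0, fun h0 => hw.2 (congrArg Subtype.val h0)⟩⟩
  obtain ⟨ω, hω⟩ := Module.End.exists_eigenvalue (g.restrict hmap)
  obtain ⟨w', hw'⟩ := hω.exists_hasEigenvector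
  refine ⟨ω, w'.1, fun h0 => hw'.2 (Subtype.ext h0), Module.End.mem_eigenspace_iff.1 w'.2,
    congrArg Subtype.val hw'.apply_eq_smul⟩

theorem root_of_eig {E W : Type} [Field E] [AddCommGroup W] [Module E W]
    {g : Module.End E W} {N : ℕ} (hg : g ^ N = 1) {ω : E} {w : W} (hw : w ≠ 0)
    (h : g w = ω • w) : ω ^ N = 1 := by
  have h12 : ∀ j : ℕ, (g ^ j) w = ω ^ j • w := by
    intro j
    induction j with
    | zero => rw [pow_zero, pow_zero, one_smul, Module.End.one_apply]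
    | succ j ih => rw [pow_succ', Module.End.mul_apply, ih, map_smul, h, smul_smul, ← pow_succ]
  have h13 := h12 N
  rw [hg, Module.End.one_apply] at h13
  have h15 : (ω ^ N - 1) • w = 0 := by
    rw [sub_smul, one_smul, ← h13, sub_self]
  rcases smul_eq_zero.1 h15 with h16 | h16
  · exact sub_eq_zero.1 h16
  · exact absurd h16 hw

variable {c : ℕ} [Fact c.Prime]

/-- every eigenvalue belongs to a nontrivial character, and the estimate -/
theorem cov_slope {N : ℕ} (hN : 2 ≤ N) (κ : Type) [Field κ] [Fintype κ] [CharP κ c] {f : ℕ}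
    (hf : Fintype.card κ = c ^ f) {z : κ} (hz : IsPrimitiveRoot z N)
    {k : Type} [Field k] [IsAlgClosed k] [CharP k c] {R : Subring (PadicAlgCl c)} {res : R →+* k}
    (hR : IsRes c R res) (eκ : κ →+* k) {Ω : PadicAlgCl c} (hΩ : IsPrimitiveRoot Ω N)
    (hΩz : ∃ h : Ω ∈ R, res ⟨Ω, h⟩ = eκ z)
    {s n : ℕ} (l : Fin s → Fin (n + 1) → κ) (a : Fin s → ℕ) (ha : ∀ i, (a i).Coprime N)
    {E W : Type} [Field E] [CharZero E] [IsAlgClosed E] [AddCommGroup W] [Module E W]
    [FiniteDimensional E W] {Φ g : Module.End E W} (h : IsCov N l a z Φ g) {α : E}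
    (hα : Φ.HasEigenvalue α) (hα0 : α ≠ 0) :
    ∃ (hx : α ∈ algebraicClosure ℚ E) (μ : algebraicClosure ℚ E), μ ^ N = 1 ∧ μ ≠ 1 ∧
      ∀ (fe : algebraicClosure ℚ E →+* PadicAlgCl c) (j : ℕ),
      ¬ N ∣ j → fe μ = Ω ^ j →
        ‖fe ⟨α, hx⟩‖ ^ N
            * ‖((c : ℕ) : PadicAlgCl c)‖ ^ (∑ i, ∑ t ∈ range f, (j * a i * c ^ t) % N)
          ≤ ‖((c : ℕ) : PadicAlgCl c)‖ ^ (f * (n + 1) * N) := by
  classical
  obtain ⟨ω, w, hw, hΦ, hg⟩ := exists_eig h.comm hα
  have hωN : ω ^ N = 1 := root_of_eig h.order hw hg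
  have hω1 : ω ≠ 1 := by
    rintro rfl
    rw [one_smul] at hg
    exact hw (h.inv w hg)
  have hω0 : ω ≠ 0 := by
    rintro rfl
    rw [zero_pow (by omega)] at hωN
    exact zero_ne_one hωN
  have hμalg : IsAlgebraic ℚ ω⁻¹ := by
    refine IsAlgebraic.inv ?_
    refine ⟨X ^ N - 1, ?_, ?_⟩
    · exact X_pow_sub_C_ne_zero (by omega) (1 : ℚ)
    · rw [map_sub, map_pow, aeval_X, map_one, hωN, sub_self]
  have hμK : ω⁻¹ ∈ algebraicClosure ℚ E := (mem_algebraicClosure_iff).mpr hμalg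
  set Φ' := Φ.restrict (Pool.Agent.TH117.HS.mapsTo_eig h.comm ω) with hΦ'
  obtain ⟨S, mult, hS, hSe, htr⟩ := Pool.Agent.W800.HA.TE.main E (g.eigenspace ω) Φ'
  have hαS : α ∈ S := by
    apply hSe α hα0
    have hwm : w ∈ g.eigenspace ω := Module.End.mem_eigenspace_iff.2 hg
    refine Module.End.hasEigenvalue_of_hasEigenvector (x := ⟨w, hwm⟩) ?_
    refine Module.End.hasEigenvector_iff.2 ⟨Module.End.mem_eigenspace_iff.2 ?_, ?_⟩
    · apply Subtype.ext
      exact hΦ
    · intro h0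
      exact hw (congrArg Subtype.val h0)
  obtain ⟨hx, hx2⟩ := slope hN κ hf hz hR eκ hΩ hΩz l a ha
    (μ := (⟨ω⁻¹, hμK⟩ : algebraicClosure ℚ E)) n S mult hS (by
      intro L _ _ _
      rw [← trace_kum (by omega) hz h hωN hω1 L, ← htr _ Module.finrank_pos]) hαS
  refine ⟨hx, ⟨ω⁻¹, hμK⟩, ?_, ?_, hx2⟩
  · apply Subtype.ext
    show (ω⁻¹) ^ N = 1
    rw [inv_pow, hωN, inv_one]
  · intro h0
    exact hω1 (inv_eq_one.1 (congrArg Subtype.val h0))

end Pool.Agent.N876.TC
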