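import Pool.Agent.N876.TC.Arith
import Pool.Agent.N876.TC.Comp

/-!
# Tate classes on products of cyclic coverings and arbitrary varieties
-/

set_option autoImplicit false

namespace Pool.Agent.N876.TC

open Finset Polynomial TensorProduct

theorem tot_pow {E K W : Type} [Field E] [AddCommGroup W] [Module E W] (q : E) (deg : K → ℕ)
    (Φ : Module.End E W) (m : ℕ) : (tot q deg Φ) ^ m = tot (q ^ m) deg (Φ ^ m) := by
  induction m with
  | zero =>
    rw [pow_zero, pow_zero, pow_zero]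
    refine LinearMap.ext fun x => ?_
    refine Prod.ext ?_ rfl
    funext k
    show x.1 k = (1 : E) ^ deg k * x.1 k
    rw [one_pow, one_mul]
  | succ m ih =>
    rw [pow_succ, ih, pow_succ, pow_succ]
    refine LinearMap.ext fun x => ?_
    refine Prod.ext ?_ rfl
    funext k
    show (q ^ m) ^ deg k * (q ^ deg k * x.1 k) = (q ^ m * q) ^ deg k * x.1 k
    rw [mul_pow, mul_assoc]

section eigen

variable {B : Type} [AddCommGroup B] [Module ℂ B] [FiniteDimensional ℂ B]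

theorem eig_of_gen {f : Module.End ℂ B} {ν : ℂ} {b : B} (hb : b ≠ 0)
    (h : b ∈ f.maxGenEigenspace ν) : f.HasEigenvalue ν := by
  by_contra h0
  obtain ⟨r, hr⟩ := (Module.End.mem_maxGenEigenspace f ν b).1 h
  obtain ⟨S, hS⟩ := left_inv h0
  have h1 : ∀ r : ℕ, ∀ b : B, ((f - ν • 1) ^ r) b = 0 → b = 0 := by
    intro r
    induction r with
    | zero => intro b hb; rwa [pow_zero, Module.End.one_apply] at hb
    | succ r ih =>
      intro b hb
      rw [pow_succ, Module.End.mul_apply] at hb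
      have h2 := ih _ hb
      rw [LinearMap.sub_apply, LinearMap.smul_apply, Module.End.one_apply] at h2
      rw [← hS b, h2, map_zero]
  exact hb (h1 r b hr)

/-- a small eigenvalue of a power does not exist -/
theorem small_zero {Φ : Module.End ℂ B} {q : ℕ} (hq : 1 < q)
    (hΦ : ∀ β, Φ.HasEigenvalue β → IsAlgebraic ℚ β ∧ ∃ j : ℕ, ‖β‖ ^ 2 = (q : ℝ) ^ j)
    {m : ℕ} (hm : 0 < m) {ν : ℂ} (hν : ‖ν‖ < 1) {b : B}
    (h : b ∈ (Φ ^ m).maxGenEigenspace ν) : b = 0 := by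
  by_contra hb
  have h1 := eig_of_gen hb h
  have h2 : ν ∈ spectrum ℂ (Φ ^ m) := Module.End.hasEigenvalue_iff_mem_spectrum.mp h1
  rw [spectrum.map_pow_of_pos Φ hm] at h2
  obtain ⟨β, hβ, hβm⟩ := h2
  obtain ⟨-, j, hj⟩ := hΦ β (Module.End.hasEigenvalue_iff_mem_spectrum.mpr hβ)
  have hβm' : β ^ m = ν := hβm
  have hq1 : (1 : ℝ) ≤ q := by exact_mod_cast hq.le
  have h3 : 1 ≤ ‖β‖ := by
    have h4 : (1 : ℝ) ≤ ‖β‖ ^ 2 := by
      rw [hj]
      exact one_le_pow₀ hq1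
    nlinarith [norm_nonneg β]
  have h5 : 1 ≤ ‖ν‖ := by
    rw [← hβm', norm_pow]
    exact one_le_pow₀ h3
  linarith

end eigen

/-- images of generalised eigenvectors -/
theorem gen_aux {T B : Type} [AddCommGroup T] [Module ℂ T] [AddCommGroup B] [Module ℂ B]
    (L : T →ₗ[ℂ] B) (F : Module.End ℂ T) (G : Module.End ℂ B) {D : ℂ} (hD0 : D ≠ 0)
    (hL : ∀ v, L (F v) = D • G (L v)) {μ : ℂ} {v : T} (hv : v ∈ F.maxGenEigenspace μ) :
    L v ∈ G.maxGenEigenspace (μ / D) := by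
  obtain ⟨r, hr⟩ := (Module.End.mem_maxGenEigenspace F μ v).1 hv
  refine (Module.End.mem_maxGenEigenspace _ _ _).2 ⟨r, ?_⟩
  have h1 : ∀ (r : ℕ) (v : T),
      L (((F - μ • 1) ^ r) v) = D ^ r • ((G - (μ / D) • 1) ^ r) (L v) := by
    intro r
    induction r with
    | zero =>
      intro v
      rw [pow_zero, pow_zero, pow_zero, one_smul, Module.End.one_apply, Module.End.one_apply]
    | succ r ih =>
      intro v
      rw [pow_succ, Module.End.mul_apply, ih]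
      have h2 : L ((F - μ • 1) v) = D • (G - (μ / D) • 1) (L v) := by
        rw [LinearMap.sub_apply, LinearMap.smul_apply, Module.End.one_apply, map_sub, map_smul,
          hL, LinearMap.sub_apply, LinearMap.smul_apply, Module.End.one_apply,
          smul_sub, smul_smul, mul_div_cancel₀ _ hD0]
      rw [h2, map_smul, smul_smul, ← pow_succ, pow_succ (G - (μ / D) • 1),
        Module.End.mul_apply]
  have h3 := h1 r v
  rw [hr, map_zero] at h3
  exact (smul_eq_zero.1 h3.symm).resolve_left (pow_ne_zero _ hD0)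

section main

variable {c : ℕ} [Fact c.Prime] {ι : Type} [Fintype ι] [DecidableEq ι]
  {K W : ι → Type} [∀ i, Fintype (K i)] [∀ i, AddCommGroup (W i)] [∀ i, Module ℂ (W i)]
  [∀ i, FiniteDimensional ℂ (W i)] {B : Type} [AddCommGroup B] [Module ℂ B]
  [FiniteDimensional ℂ B]

theorem proj_main {N : ℕ} (hN : 0 < N) {d n s : ι → ℕ}
    (hd : ∀ i, 2 ≤ d i) (hdN : ∀ i, d i ∣ N) (κ : Type) [Field κ] [Fintype κ] [CharP κ c] {f : ℕ}
    (hf : Fintype.card κ = c ^ f) {z : ι → κ} (hz : ∀ i, IsPrimitiveRoot (z i) (d i))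
    (l : ∀ i, Fin (s i) → Fin (n i + 1) → κ) (a : ∀ i, Fin (s i) → ℕ)
    (ha : ∀ i k, (a i k).Coprime (d i)) (hsmall : Small c f N d n s a)
    {Φ g : ∀ i, Module.End ℂ (W i)}
    (h : ∀ i, IsCov (d i) (l i) (a i) (z i) (Φ i) (g i))
    (hpure : ∀ i (α : ℂ), (Φ i).HasEigenvalue α → ‖α‖ ^ 2 = (Fintype.card κ : ℝ) ^ n i)
    {ΦB : Module.End ℂ B}
    (hB : ∀ β, ΦB.HasEigenvalue β →
      IsAlgebraic ℚ β ∧ ∃ j : ℕ, ‖β‖ ^ 2 = (Fintype.card κ : ℝ) ^ j)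
    (hirr : Irreducible (cyclotomic N (IntermediateField.adjoin ℚ {β | ΦB.HasEigenvalue β})))
    (deg : ∀ i, K i → ℕ) {m : ℕ} (hm : 0 < m) (w : ℕ)
    {v : (⨂[ℂ] i, ((K i → ℂ) × W i)) ⊗[ℂ] B}
    (hv : v ∈ ((MM (fun i => tot (Fintype.card κ : ℂ) (deg i) (Φ i)) ΦB) ^ m).maxGenEigenspace
      ((Fintype.card κ : ℂ) ^ (m * w))) :
    MM (fun i => (prj : Module.End ℂ ((K i → ℂ) × W i))) 1 v = v := by
  classical
  have hF : IntermediateField.adjoin ℚ {β | ΦB.HasEigenvalue β} ≤ AA := by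
    rw [IntermediateField.adjoin_le_iff]
    intro β hβ
    exact mem_algebraicClosure_iff.mpr (hB β hβ).1
  refine gen_main (fun i => tot (Fintype.card κ : ℂ) (deg i) (Φ i)) (fun i => prj)
    (fun i x => (Φ i).HasEigenvalue x) (fun i x => ∃ k, x = (Fintype.card κ : ℂ) ^ deg i k)
    (fun i => tot_prj _ _ _) (fun i => prj_prj) (fun i x hx => fac_W hx) (fun i x hx => fac_K hx)
    ΦB m _ ?_ v hv
  intro I hI x hx1 hx2 β hβ heq
  have hx3 : ∀ i, ∃ e : ℕ, i ∉ I → x i = (Fintype.card κ : ℂ) ^ e := by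
    intro i
    by_cases hi : i ∈ I
    · exact ⟨0, fun h => absurd hi h⟩
    · obtain ⟨k, hk⟩ := hx2 i hi
      exact ⟨_, fun _ => hk⟩
  choose e he using hx3
  obtain ⟨j, hj⟩ := (hB β hβ).2
  have h1 : ∏ i, x i = (∏ i ∈ I, x i) * (Fintype.card κ : ℂ) ^ (∑ i ∈ Iᶜ, e i) := by
    rw [← Finset.prod_mul_prod_compl I x, ← prod_pow_eq_pow_sum]
    congr 1
    exact prod_congr rfl fun i hi => he i (mem_compl.1 hi)
  rw [h1] at heq
  exact no_tate hN hd hdN κ hf hz l a ha hsmall h hpure hF hirr hI hx1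
    (IntermediateField.subset_adjoin ℚ _ hβ) hj hm heq

variable [∀ i, DecidableEq (K i)]

omit [DecidableEq ι] [∀ i, Fintype (K i)] [∀ i, FiniteDimensional ℂ (W i)]
  [∀ i, DecidableEq (K i)] in
theorem cmp_pow (q : ℂ) (deg : ∀ i, K i → ℕ) (Φ : ∀ i, Module.End ℂ (W i)) (ΦB : Module.End ℂ B)
    (k : ∀ i, K i) (m : ℕ) (v : (⨂[ℂ] i, ((K i → ℂ) × W i)) ⊗[ℂ] B) :
    cmp k (((MM (fun i => tot q (deg i) (Φ i)) ΦB) ^ m) v) =
      (q ^ (∑ i, deg i (k i))) ^ m • (ΦB ^ m) (cmp k v) := by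
  induction m generalizing v with
  | zero => rw [pow_zero, pow_zero, pow_zero, one_smul]; rfl
  | succ m ih =>
    rw [pow_succ, Module.End.mul_apply, ih, cmp_tot, map_smul, smul_smul, ← pow_succ, pow_succ ΦB,
      Module.End.mul_apply]

omit [DecidableEq ι] [∀ i, Fintype (K i)] [∀ i, FiniteDimensional ℂ (W i)]
  [∀ i, DecidableEq (K i)] in
theorem cmp_gen {q : ℂ} (hq : q ≠ 0) (deg : ∀ i, K i → ℕ) (Φ : ∀ i, Module.End ℂ (W i))
    (ΦB : Module.End ℂ B) (k : ∀ i, K i) (m : ℕ) {μ : ℂ}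
    {v : (⨂[ℂ] i, ((K i → ℂ) × W i)) ⊗[ℂ] B}
    (hv : v ∈ ((MM (fun i => tot q (deg i) (Φ i)) ΦB) ^ m).maxGenEigenspace μ) :
    cmp k v ∈ (ΦB ^ m).maxGenEigenspace (μ / (q ^ (∑ i, deg i (k i))) ^ m) :=
  gen_aux (cmp k) _ (ΦB ^ m) (pow_ne_zero _ (pow_ne_zero _ hq))
    (fun v => cmp_pow q deg Φ ΦB k m v) hv

/-- the generalised Tate classes -/
theorem gen_tate {N : ℕ} (hN : 0 < N) {d n s : ι → ℕ}
    (hd : ∀ i, 2 ≤ d i) (hdN : ∀ i, d i ∣ N) (κ : Type) [Field κ] [Fintype κ] [CharP κ c] {f : ℕ}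
    (hf : Fintype.card κ = c ^ f) {z : ι → κ} (hz : ∀ i, IsPrimitiveRoot (z i) (d i))
    (l : ∀ i, Fin (s i) → Fin (n i + 1) → κ) (a : ∀ i, Fin (s i) → ℕ)
    (ha : ∀ i k, (a i k).Coprime (d i)) (hsmall : Small c f N d n s a)
    {Φ g : ∀ i, Module.End ℂ (W i)}
    (h : ∀ i, IsCov (d i) (l i) (a i) (z i) (Φ i) (g i))
    (hpure : ∀ i (α : ℂ), (Φ i).HasEigenvalue α → ‖α‖ ^ 2 = (Fintype.card κ : ℝ) ^ n i)
    {ΦB : Module.End ℂ B}
    (hB : ∀ β, ΦB.HasEigenvalue β →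
      IsAlgebraic ℚ β ∧ ∃ j : ℕ, ‖β‖ ^ 2 = (Fintype.card κ : ℝ) ^ j)
    (hirr : Irreducible (cyclotomic N (IntermediateField.adjoin ℚ {β | ΦB.HasEigenvalue β})))
    (deg : ∀ i, K i → ℕ) {m : ℕ} (hm : 0 < m) (w : ℕ)
    {v : (⨂[ℂ] i, ((K i → ℂ) × W i)) ⊗[ℂ] B}
    (hv : v ∈ ((MM (fun i => tot (Fintype.card κ : ℂ) (deg i) (Φ i)) ΦB) ^ m).maxGenEigenspace
      ((Fintype.card κ : ℂ) ^ (m * w))) :
    v = ∑ k : ∀ i, K i, (ev k : ⨂[ℂ] i, ((K i → ℂ) × W i)) ⊗ₜ[ℂ] (cmp k v) ∧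
      ∀ k : ∀ i, K i,
        (∑ i, deg i (k i) ≤ w ∧ cmp k v ∈ (ΦB ^ m).maxGenEigenspace
          ((Fintype.card κ : ℂ) ^ (m * (w - ∑ i, deg i (k i))))) ∨ cmp k v = 0 := by
  have hq1 : 1 < Fintype.card κ := Fintype.one_lt_card
  have hq0 : (Fintype.card κ : ℂ) ≠ 0 := by exact_mod_cast Fintype.card_ne_zero
  have h1 := proj_main hN hd hdN κ hf hz l a ha hsmall h hpure hB hirr deg hm w hv
  rw [MM_prj] at h1
  refine ⟨h1.symm, ?_⟩
  intro k
  have h2 := cmp_gen hq0 deg Φ ΦB k m hv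
  rcases le_or_gt (∑ i, deg i (k i)) w with hk | hk
  · left
    refine ⟨hk, ?_⟩
    convert h2 using 2
    rw [eq_div_iff (pow_ne_zero _ (pow_ne_zero _ hq0)), ← pow_mul, ← pow_add]
    congr 1
    rw [mul_comm (∑ i, deg i (k i)) m, ← mul_add]
    congr 1
    omega
  · right
    refine small_zero hq1 hB hm ?_ h2
    rw [norm_div, norm_pow, norm_pow, norm_pow, Complex.norm_natCast, ← pow_mul]
    rw [div_lt_one (by positivity)]
    refine pow_lt_pow_right₀ (by exact_mod_cast hq1) ?_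
    rw [mul_comm (∑ i, deg i (k i)) m]
    exact Nat.mul_lt_mul_of_pos_left hk hm

end main

end Pool.Agent.N876.TC
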