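import Pool.Agent.W528.HB.All
import Pool.Agent.TH117.HS.Glue

/-!
# Absolute values of the Frobenius eigenvalues of cyclic coverings branched along hyperplanes
-/

set_option autoImplicit false

namespace Pool.Agent.N876.TC

open Finset Polynomial Pool.Agent.W528.HA Pool.Agent.W528.HB

lemma factor' {L : Type} [Field L] [Fintype L] {R : Type} [CommRing R] (T : MulChar L R) {N : ℕ}
    (hT : T ^ N = 1) {j a : ℕ} (hj : ¬ N ∣ j) (ha : a.Coprime N) (y : L) :
    T (y ^ a) ^ j = (T ^ ((j * a) % N)) y := by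
  have hb : (j * a) % N ≠ 0 := by
    intro h
    have h1 : N ∣ j * a := Nat.dvd_of_mod_eq_zero h
    exact hj ((Nat.Coprime.symm ha).dvd_of_dvd_mul_right h1)
  rw [MulChar.pow_apply' _ hb, map_pow, ← pow_mul, mul_comm a j]
  by_cases hy : y = 0
  · have hj0 : j * a ≠ 0 := by
      intro h
      apply hb
      rw [h, Nat.zero_mod]
    rw [hy, MulChar.map_zero, zero_pow hb, zero_pow hj0]
  · exact pow_mod_char T hT _ hy

theorem kum_eq' {N : ℕ} (L : Type) [Field L] [Fintype L] {R : Type} [CommRing R]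
    (T : MulChar L R) (hT : T ^ N = 1) {z : L} {ω : R}
    (hTz : ∀ (b : ℕ) (y : L), 1 ≤ b → T y ^ b = kv N z (ω ^ b) (y ^ ((Fintype.card L - 1) / N)))
    {ι : Type} [Fintype ι] (M : ℕ) (l : ι → Fin M → L) (a : ι → ℕ) (ha : ∀ i, (a i).Coprime N)
    {j : ℕ} (hj : ¬ N ∣ j) :
    kummerSum L R N M l a z (ω ^ j)
      = ∑ x : Fin M → L, ∏ i, (T ^ ((j * a i) % N)) (∑ k, l i k * x k) := by
  classical
  have hj1 : 1 ≤ j := by
    rcases Nat.eq_zero_or_pos j with h | h
    · rw [h] at hj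
      exact absurd (dvd_zero N) hj
    · exact h
  unfold kummerSum
  refine sum_congr rfl fun x _ => ?_
  rw [← hTz j _ hj1, map_prod, ← prod_pow]
  exact prod_congr rfl fun i _ => factor' T hT hj (ha i) (∑ k, l i k * x k)

variable {c : ℕ} [Fact c.Prime]

/-- the estimate of the sum over the affine space of dimension `M` -/
theorem kum_est' {k : Type} [Field k] [CharP k c] {R : Subring (PadicAlgCl c)} {res : R →+* k}
    (hR : IsRes c R res) {N : ℕ} (hN : 2 ≤ N) {f n : ℕ} (hf : 0 < f) (hn : 0 < n)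
    (hNf : N ∣ c ^ f - 1)
    (L : Type) [Field L] [Fintype L] [CharP L c] (hcard : Fintype.card L = c ^ (f * n))
    (e : L →+* k) {z : L} (hz : IsPrimitiveRoot z N) {Ω : PadicAlgCl c}
    (hΩ : IsPrimitiveRoot Ω N) (hΩz : ∃ h : Ω ∈ R, res ⟨Ω, h⟩ = e z)
    {ι : Type} [Fintype ι] (M : ℕ) (l : ι → Fin M → L) (a : ι → ℕ) (ha : ∀ i, (a i).Coprime N)
    {j : ℕ} (hj : ¬ N ∣ j) :
    ‖kummerSum L (PadicAlgCl c) N M l a z (Ω ^ j)‖ ^ N
        * ‖((c : ℕ) : PadicAlgCl c)‖ ^ (n * ∑ i, ∑ s ∈ range f, (j * a i * c ^ s) % N)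
      ≤ ‖((c : ℕ) : PadicAlgCl c)‖ ^ (f * n * M * N) := by
  classical
  have hGD : GD := Pool.Agent.W800.HA.GD.main
  have hDG : DG := Pool.Agent.W883.HB.DG.main Pool.Agent.W135.HB.SA.main
  have hDI : DI := Pool.Agent.W563.HB.DI.main
  have hAY : AY := Pool.Agent.W271.HB.AY.main
  have hGO : GO := Pool.Agent.W540.HB.GO.main
  have hTT : TT := Pool.Agent.W400.HB.TT.main
  have hc1 : 1 ≤ c := (Fact.out : c.Prime).one_lt.le
  have hNk : (N : k) ≠ 0 := natCast_ne_zero_of_dvd hNf hf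
  obtain ⟨w, hw⟩ := hTT c k R res hR L e
  obtain ⟨⟨ψ, hψ⟩, hprop⟩ := hAY c L
  obtain ⟨hψ1, hψ2⟩ := hprop ψ hψ
  have hgo := hGO c k R res hR L e w hw ψ hψ
  have hd := dvd_card_of_root hz (by omega)
  have hTz := fun (b : ℕ) (y : L) (hb : 1 ≤ b) =>
    kvT hw (by omega) hNk hz hΩ.pow_eq_one hΩz b y hb
  set T := w ^ ((Fintype.card L - 1) / N) with hT
  have hTN : T ^ N = 1 := T_pow_card w hd
  have hne : ∀ b, 1 ≤ b → b < N → T ^ b ≠ 1 := by
    intro b hb hbN h
    obtain ⟨y, hy0, hy⟩ := exists_pow_eq' L (by omega) hd hz.pow_eq_one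
    have h1 := hTz 1 y le_rfl
    rw [pow_one, pow_one, hy] at h1
    have h2 : kv N z Ω z = Ω := by
      unfold kv
      rw [sum_eq_single 1]
      · rw [pow_one, if_pos rfl, pow_one]
      · intro i hi hi1
        rw [mem_range] at hi
        rw [if_neg]
        intro h
        apply hi1
        apply hz.pow_inj hi (by omega)
        rw [pow_one]
        exact h.symm
      · intro h
        exact absurd (mem_range.mpr (by omega)) h
    rw [h2] at h1
    have h3 : (T ^ b) y = (1 : MulChar L (PadicAlgCl c)) y := by rw [h]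
    rw [MulChar.pow_apply' T (by omega), h1, MulChar.one_apply (isUnit_iff_ne_zero.mpr hy0)] at h3
    exact hΩ.pow_ne_one_of_pos_of_lt (by omega) hbN h3
  rw [kum_eq' L T hTN hTz M l a ha hj]
  have hest := est hGD hDG hDI w ψ hψ1 hψ2 hgo hcard hd (Nat.mul_pos hf hn) hne M
    ι l (fun i => (j * a i) % N) (by
      intro i
      refine ⟨?_, Nat.mod_lt _ (by omega)⟩
      rw [Nat.one_le_iff_ne_zero]
      intro h
      have h1 : N ∣ j * a i := Nat.dvd_of_mod_eq_zero h
      exact hj ((Nat.Coprime.symm (ha i)).dvd_of_dvd_mul_right h1))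
  have h1 : ∑ i, ∑ s ∈ range (f * n), ((j * a i) % N * c ^ s) % N
      = n * ∑ i, ∑ s ∈ range f, (j * a i * c ^ s) % N := by
    rw [mul_sum]
    refine sum_congr rfl fun i _ => ?_
    rw [sum_period (by omega) hNf hc1]
    congr 1
    refine sum_congr rfl fun s _ => ?_
    exact (Nat.mod_modEq (j * a i) N).mul_right (c ^ s)
  rw [h1] at hest
  exact hest

lemma norm_c_pos : 0 < ‖((c : ℕ) : PadicAlgCl c)‖ := by
  rw [norm_pos_iff]
  exact_mod_cast (Fact.out : c.Prime).ne_zero

lemma norm_c_lt : ‖((c : ℕ) : PadicAlgCl c)‖ < 1 := by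
  have h1 : algebraMap ℚ_[c] (PadicAlgCl c) ((c : ℕ) : ℚ_[c]) = ((c : ℕ) : PadicAlgCl c) :=
    map_natCast _ _
  rw [← h1, PadicAlgCl.norm_extends, Padic.norm_natCast_lt_one_iff]

lemma ext_exists (κ : Type) [Field κ] [Fintype κ] [CharP κ c] (n : ℕ) (hn : 1 ≤ n) :
    ∃ (L : Type) (_ : Field L) (_ : Fintype L) (_ : Algebra κ L), Module.finrank κ L = n := by
  have : NeZero n := ⟨by omega⟩
  let _ : Fintype (FiniteField.Extension κ c n) := Fintype.ofFinite _
  exact ⟨FiniteField.Extension κ c n, inferInstance, inferInstance, inferInstance,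
    FiniteField.finrank_extension κ c n⟩

/-- The absolute values of the exponents. -/
theorem slope {N : ℕ} (hN : 2 ≤ N) (κ : Type) [Field κ] [Fintype κ] [CharP κ c] {f : ℕ}
    (hf : Fintype.card κ = c ^ f) {z : κ} (hz : IsPrimitiveRoot z N)
    {k : Type} [Field k] [IsAlgClosed k] [CharP k c] {R : Subring (PadicAlgCl c)} {res : R →+* k}
    (hR : IsRes c R res) (eκ : κ →+* k) {Ω : PadicAlgCl c} (hΩ : IsPrimitiveRoot Ω N)
    (hΩz : ∃ h : Ω ∈ R, res ⟨Ω, h⟩ = eκ z)
    {ι : Type} [Fintype ι] {M : ℕ} (l : ι → Fin M → κ) (a : ι → ℕ) (ha : ∀ i, (a i).Coprime N)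
    {E : Type} [Field E] [CharZero E] [IsAlgClosed E] {μ : algebraicClosure ℚ E} (r : ℕ)
    (S : Finset E) (mult : E → ℕ) (hS : ∀ a ∈ S, a ≠ 0 ∧ 0 < mult a)
    (hA : ∀ (L : Type) [Field L] [Fintype L] [Algebra κ L],
      ((Fintype.card L : E) - 1) * ((-1) ^ r * ∑ a ∈ S, (mult a : E) * a ^ Module.finrank κ L)
        = kummerSum L E N M (fun i k => algebraMap κ L (l i k)) a (algebraMap κ L z) (μ : E))
    {x : E} (hxS : x ∈ S) :
    ∃ hx : x ∈ algebraicClosure ℚ E, ∀ (fe : algebraicClosure ℚ E →+* PadicAlgCl c) (j : ℕ),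
      ¬ N ∣ j → fe μ = Ω ^ j →
        ‖fe ⟨x, hx⟩‖ ^ N
            * ‖((c : ℕ) : PadicAlgCl c)‖ ^ (∑ i, ∑ s ∈ range f, (j * a i * c ^ s) % N)
          ≤ ‖((c : ℕ) : PadicAlgCl c)‖ ^ (f * M * N) := by
  classical
  have hAL : AL := Pool.Agent.W782.HA.AL.main
  have hBD : BD := Pool.Agent.W605.HA.BD.main
  have hf0 : 0 < f := by
    rcases Nat.eq_zero_or_pos f with h | h
    · rw [h, pow_zero] at hf
      have := Fintype.one_lt_card (α := κ)
      omega
    · exact h
  have hNf : N ∣ c ^ f - 1 := by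
    rw [← hf]
    exact dvd_card_of_root hz (by omega)
  have hμalg : IsAlgebraic ℚ (μ : E) := (mem_algebraicClosure_iff).mp μ.2
  have hpoly : ∀ n, 1 ≤ n → ∃ g : ℚ[X], aeval (μ : E) g = ∑ a ∈ S, (mult a : E) * a ^ n := by
    intro n hn
    obtain ⟨L, _, _, _, hL⟩ := ext_exists (c := c) κ n hn
    have h1 := hA L
    rw [hL] at h1
    have hQ1 := Fintype.one_lt_card (α := L)
    set Q : ℕ := Fintype.card L with hQdef
    refine ⟨C (((-1) ^ r * ((Q : ℚ) - 1))⁻¹)
      * kummerSum L ℚ[X] N M (fun i k => algebraMap κ L (l i k)) a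
        (algebraMap κ L z) X, ?_⟩
    rw [map_mul, aeval_C]
    have h2 : aeval (μ : E) (kummerSum L ℚ[X] N M (fun i k => algebraMap κ L (l i k)) a
        (algebraMap κ L z) X)
        = kummerSum L E N M (fun i k => algebraMap κ L (l i k)) a
          (algebraMap κ L z) (μ : E) := by
      have h3 := map_kummerSum ((aeval (μ : E) : ℚ[X] →ₐ[ℚ] E) : ℚ[X] →+* E) N M
        (fun i k => algebraMap κ L (l i k)) a (algebraMap κ L z) X
      rw [RingHom.coe_coe, aeval_X] at h3
      exact h3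
    rw [h2, ← h1]
    have h4 : ((Q : E) - 1) ≠ 0 := by
      rw [sub_ne_zero]
      exact_mod_cast hQ1.ne'
    have h5 : ((-1 : E)) ^ r ≠ 0 := pow_ne_zero _ (neg_ne_zero.mpr one_ne_zero)
    rw [map_inv₀, map_mul, map_pow, map_neg, map_sub, map_one, map_natCast]
    field_simp
  have halg := hAL E (μ : E) hμalg S mult hS hpoly
  have hmem : ∀ x ∈ S, x ∈ algebraicClosure ℚ E := fun x hx =>
    (mem_algebraicClosure_iff).mpr (halg x hx)
  refine ⟨hmem x hxS, ?_⟩
  intro fe j hj hfμ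
  set g : E → PadicAlgCl c := fun x => if h : x ∈ algebraicClosure ℚ E then fe ⟨x, h⟩ else 0
    with hgdef
  have hg : ∀ (x : E) (hx : x ∈ algebraicClosure ℚ E), g x = fe ⟨x, hx⟩ := by
    intro x hx
    simp only [hgdef]
    rw [dif_pos hx]
  have hinj : Set.InjOn g (S : Set E) := by
    intro x hx y hy hxy
    rw [hg x (hmem x hx), hg y (hmem y hy)] at hxy
    have := fe.injective hxy
    exact congrArg Subtype.val this
  set ρ := ‖((c : ℕ) : PadicAlgCl c)‖ with hρ
  have hρ0 : 0 < ρ := norm_c_pos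
  have hρ1 : ρ < 1 := norm_c_lt
  set A := ∑ i, ∑ s ∈ range f, (j * a i * c ^ s) % N with hAdef
  set ρN := (ρ ^ (f * M * N) / ρ ^ A) ^ ((N : ℝ)⁻¹) with hρN
  have hpos : 0 < ρ ^ (f * M * N) / ρ ^ A := div_pos (pow_pos hρ0 _) (pow_pos hρ0 _)
  have hρN0 : 0 < ρN := Real.rpow_pos_of_pos hpos _
  have hρNN : ρN ^ N = ρ ^ (f * M * N) / ρ ^ A := by
    have hN0 : (N : ℝ) ≠ 0 := by exact_mod_cast (by omega : N ≠ 0)
    rw [hρN, ← Real.rpow_natCast, ← Real.rpow_mul hpos.le, inv_mul_cancel₀ hN0,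
      Real.rpow_one]
  -- the bound
  have hbound : ∀ n, 1 ≤ n → ‖∑ x ∈ S, (mult x : PadicAlgCl c) * g x ^ n‖ ≤ ρN ^ n := by
    intro n hn
    obtain ⟨L, _, _, _, hL⟩ := ext_exists (c := c) κ n hn
    have : CharP L c := charP_of_injective_algebraMap (algebraMap κ L).injective c
    have hcardL : Fintype.card L = c ^ (f * n) := by
      rw [pow_mul, ← hf, ← hL]
      exact Module.card_eq_pow_finrank
    -- the embedding of L
    obtain ⟨eL, heL⟩ : ∃ eL : L →+* k, ∀ y : κ, eL (algebraMap κ L y) = eκ y := by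
      letI : Algebra κ k := eκ.toAlgebra
      have : Module.Finite κ L := .of_finite
      exact ⟨((IsAlgClosed.lift : L →ₐ[κ] k) : L →+* k), fun y =>
        (IsAlgClosed.lift : L →ₐ[κ] k).commutes y⟩
    have hzL : IsPrimitiveRoot (algebraMap κ L z) N :=
      hz.map_of_injective (algebraMap κ L).injective
    have h1 := hA L
    rw [hL] at h1
    obtain ⟨hΩR, hΩz'⟩ := hΩz
    have hest := kum_est' hR hN hf0 (by omega : 0 < n) hNf L hcardL eL
      hzL hΩ ⟨hΩR, by rw [hΩz', heL]⟩ M (fun i k => algebraMap κ L (l i k)) a ha hj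
    -- the equation in the field of algebraic numbers
    have h2 : (((Fintype.card L : ℕ) : algebraicClosure ℚ E) - 1)
        * ((-1) ^ r * ∑ x ∈ S.attach, ((mult x.1 : ℕ) : algebraicClosure ℚ E)
          * (⟨x.1, hmem x.1 x.2⟩ : algebraicClosure ℚ E) ^ n)
        = kummerSum L (algebraicClosure ℚ E) N M
          (fun i k => algebraMap κ L (l i k)) a (algebraMap κ L z) μ := by
      apply (algebraMap (algebraicClosure ℚ E) E).injective
      rw [map_kummerSum]
      rw [map_mul, map_sub, map_one, map_natCast, map_mul, map_pow, map_neg, map_one, map_sum]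
      have h3 : ∑ x ∈ S.attach, algebraMap (algebraicClosure ℚ E) E
          (((mult x.1 : ℕ) : algebraicClosure ℚ E)
          * (⟨x.1, hmem x.1 x.2⟩ : algebraicClosure ℚ E) ^ n)
          = ∑ x ∈ S, (mult x : E) * x ^ n := by
        rw [← sum_attach S]
        refine sum_congr rfl fun x _ => ?_
        rw [map_mul, map_pow, map_natCast]
        rfl
      rw [h3, h1]
      rfl
    have h4 := congrArg fe h2
    rw [map_kummerSum, hfμ, map_mul, map_sub, map_one, map_natCast, map_mul, map_pow, map_neg,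
      map_one, map_sum] at h4
    have h5 : ∑ x ∈ S.attach, fe (((mult x.1 : ℕ) : algebraicClosure ℚ E)
          * (⟨x.1, hmem x.1 x.2⟩ : algebraicClosure ℚ E) ^ n)
        = ∑ x ∈ S, (mult x : PadicAlgCl c) * g x ^ n := by
      rw [← sum_attach S]
      refine sum_congr rfl fun x _ => ?_
      rw [map_mul, map_pow, map_natCast, hg x.1 (hmem x.1 x.2)]
    rw [h5] at h4
    have h6 := congrArg norm h4
    rw [norm_mul, norm_card_sub_one, one_mul, norm_mul, norm_pow, norm_neg, norm_one, one_pow,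
      one_mul] at h6
    rw [← h6, ← hρ, ← hAdef] at hest
    have h8 : ‖∑ x ∈ S, (mult x : PadicAlgCl c) * g x ^ n‖ ^ N ≤ (ρN ^ n) ^ N := by
      rw [← pow_mul, mul_comm n N, pow_mul, hρNN, div_pow, le_div_iff₀ (pow_pos (pow_pos hρ0 _) _),
        ← pow_mul, ← pow_mul, mul_comm A n]
      refine hest.trans (le_of_eq ?_)
      congr 1
      ring
    exact le_of_pow_le_pow_left₀ (by omega) (pow_nonneg hρN0.le _) h8
  -- apply the boundedness lemma
  have hfin := hBD (PadicAlgCl c) (S.image g) (fun y => ∑ x ∈ S with g x = y, mult x)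
    ρN hρN0.le (by
      intro y hy
      obtain ⟨x, hx, rfl⟩ := mem_image.mp hy
      refine ⟨?_, ?_⟩
      · rw [hg x (hmem x hx)]
        intro h
        have h1 : (⟨x, hmem x hx⟩ : algebraicClosure ℚ E) = 0 := by
          apply fe.injective
          rw [h, map_zero]
        exact (hS x hx).1 (congrArg Subtype.val h1)
      · apply sum_pos (fun x hx => (hS x (mem_filter.mp hx).1).2)
        exact ⟨x, mem_filter.mpr ⟨hx, rfl⟩⟩) (by
      intro n hn
      have h1 : ∑ y ∈ S.image g, ((∑ x ∈ S with g x = y, mult x : ℕ) : PadicAlgCl c) * y ^ n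
          = ∑ x ∈ S, (mult x : PadicAlgCl c) * g x ^ n := by
        rw [sum_image hinj]
        refine sum_congr rfl fun x hx => ?_
        have h2 : (S.filter fun x' => g x' = g x) = {x} := by
          ext x'
          rw [mem_filter, mem_singleton]
          constructor
          · rintro ⟨h3, h4⟩
            exact hinj h3 hx h4
          · rintro rfl
            exact ⟨hx, rfl⟩
        rw [h2, sum_singleton]
      rw [h1]
      exact hbound n hn) (g x) (mem_image_of_mem g hxS)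
  rw [hg x (hmem x hxS)] at hfin
  have h9 := pow_le_pow_left₀ (norm_nonneg _) hfin N
  rw [hρNN, le_div_iff₀ (pow_pos hρ0 _)] at h9
  exact h9

end Pool.Agent.N876.TC
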