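import Mathlib

/-!
# Tate classes on tensor products: linear algebra
-/

set_option autoImplicit false

namespace Pool.Agent.N876.TC

open Finset Polynomial TensorProduct

section common

variable {E T : Type} [Field E] [IsAlgClosed E] [AddCommGroup T] [Module E T]
  [FiniteDimensional E T]

/-- common eigenvectors of commuting operators -/
theorem common {J : Type} (X : J → Module.End E T) (hcomm : ∀ j j', Commute (X j) (X j'))
    (s : Finset J) : ∀ (U : Submodule E T), U ≠ ⊥ → (∀ j ∈ s, ∀ u ∈ U, X j u ∈ U) →
      ∃ u ∈ U, u ≠ 0 ∧ ∀ j ∈ s, ∃ a : E, X j u = a • u := by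
  classical
  induction s using Finset.induction_on with
  | empty =>
    intro U hU _
    obtain ⟨u, hu, hu0⟩ := U.ne_bot_iff.mp hU
    exact ⟨u, hu, hu0, by simp⟩
  | insert j s hj ih =>
    intro U hU hst
    have hnt : Nontrivial U := Submodule.nontrivial_iff_ne_bot.mpr hU
    obtain ⟨a, ha⟩ := Module.End.exists_eigenvalue
      ((X j).restrict (hst j (mem_insert_self j s)))
    obtain ⟨v, hv⟩ := ha.exists_hasEigenvector
    have hU' : U ⊓ (X j).eigenspace a ≠ ⊥ := by
      rw [Submodule.ne_bot_iff]
      refine ⟨v.1, ⟨v.2, ?_⟩, fun h0 => hv.2 (Subtype.ext h0)⟩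
      exact Module.End.mem_eigenspace_iff.2 (congrArg Subtype.val hv.apply_eq_smul)
    have hst' : ∀ j' ∈ s, ∀ u ∈ U ⊓ (X j).eigenspace a, X j' u ∈ U ⊓ (X j).eigenspace a := by
      rintro j' hj' u ⟨hu1, hu2⟩
      refine ⟨hst j' (mem_insert_of_mem hj') u hu1, ?_⟩
      have hu2' : X j u = a • u := Module.End.mem_eigenspace_iff.1 hu2
      refine Module.End.mem_eigenspace_iff.2 ?_
      rw [← Module.End.mul_apply, (hcomm j j').eq, Module.End.mul_apply, hu2', map_smul]
    obtain ⟨u, hu, hu0, h⟩ := ih _ hU' hst'
    refine ⟨u, hu.1, hu0, ?_⟩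
    intro j' hj'
    rcases mem_insert.mp hj' with rfl | h'
    · exact ⟨a, Module.End.mem_eigenspace_iff.mp hu.2⟩
    · exact h j' h'

end common

section ops

variable {E : Type} [Field E] {ι : Type} {H : ι → Type} [∀ i, AddCommGroup (H i)]
  [∀ i, Module E (H i)] {B : Type} [AddCommGroup B] [Module E B]

/-- the operator on the tensor product -/
noncomputable def MM (f : ∀ i, Module.End E (H i)) (h : Module.End E B) :
    Module.End E ((⨂[E] i, H i) ⊗[E] B) :=
  TensorProduct.map (PiTensorProduct.map f) h

theorem MM_mul (f f' : ∀ i, Module.End E (H i)) (h h' : Module.End E B) :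
    MM f h * MM f' h' = MM (fun i => f i * f' i) (h * h') := by
  unfold MM
  have h1 := PiTensorProduct.map_mul (R := E) f f'
  have h2 : (PiTensorProduct.map fun i => f i * f' i : Module.End E (⨂[E] i, H i)) =
    PiTensorProduct.map f * PiTensorProduct.map f' := h1
  rw [h2, TensorProduct.map_mul]

theorem MM_one : MM (fun i => (1 : Module.End E (H i))) (1 : Module.End E B) = 1 := by
  unfold MM
  have h1 := PiTensorProduct.map_one (R := E) (s := H)
  have h2 : (PiTensorProduct.map fun i => (1 : Module.End E (H i)) :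
    Module.End E (⨂[E] i, H i)) = 1 := h1
  rw [h2, TensorProduct.map_one]

theorem MM_comm {f f' : ∀ i, Module.End E (H i)} {h h' : Module.End E B}
    (hf : ∀ i, Commute (f i) (f' i)) (hh : Commute h h') : Commute (MM f h) (MM f' h') := by
  show MM f h * MM f' h' = MM f' h' * MM f h
  rw [MM_mul, MM_mul, hh.eq, funext fun i => (hf i).eq]

theorem MM_pow (f : ∀ i, Module.End E (H i)) (h : Module.End E B) (m : ℕ) :
    (MM f h) ^ m = MM (fun i => f i ^ m) (h ^ m) := by
  induction m with
  | zero =>
    simp only [pow_zero]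
    exact MM_one.symm
  | succ m ih => rw [pow_succ, ih, MM_mul]; rfl

variable [DecidableEq ι]

/-- one factor -/
noncomputable def slotH (i : ι) : Module.End E (H i) →ₐ[E] Module.End E (⨂[E] i, H i) :=
  AlgHom.ofLinearMap ((PiTensorProduct.mapMultilinear E H H).toLinearMap (fun _ => 1) i) (by
    show PiTensorProduct.map (Function.update (fun _ => 1) i 1) = 1
    have h1 : (Function.update (fun _ => 1) i 1 : ∀ i, Module.End E (H i)) = fun _ => 1 :=
      Function.update_eq_self i _
    rw [h1]
    exact PiTensorProduct.map_one) (by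
    intro f g
    show PiTensorProduct.map (Function.update (fun _ => 1) i (f * g)) =
      PiTensorProduct.map (Function.update (fun _ => 1) i f) *
        PiTensorProduct.map (Function.update (fun _ => 1) i g)
    have h1 : (Function.update (fun _ => 1) i (f * g) : ∀ i, Module.End E (H i)) = fun k =>
        (Function.update (fun _ => 1) i f : ∀ i, Module.End E (H i)) k *
        (Function.update (fun _ => 1) i g : ∀ i, Module.End E (H i)) k := by
      funext k
      by_cases hk : k = i
      · subst hk
        rw [Function.update_self, Function.update_self, Function.update_self]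
      · rw [Function.update_of_ne hk, Function.update_of_ne hk, Function.update_of_ne hk, one_mul]
    rw [h1]
    exact PiTensorProduct.map_mul _ _)

/-- one factor -/
noncomputable def slot (i : ι) :
    Module.End E (H i) →ₐ[E] Module.End E ((⨂[E] i, H i) ⊗[E] B) :=
  (Module.End.rTensorAlgHom E (⨂[E] i, H i) B).comp (slotH i)

theorem slot_eq (i : ι) (f : Module.End E (H i)) :
    (slot i f : Module.End E ((⨂[E] i, H i) ⊗[E] B)) =
      MM (Function.update (fun _ => 1) i f) 1 := rfl

/-- the last factor -/
noncomputable def slotB : Module.End E B →ₐ[E] Module.End E ((⨂[E] i, H i) ⊗[E] B) :=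
  Module.End.lTensorAlgHom E B (⨂[E] i, H i)

omit [DecidableEq ι] in
theorem slotB_eq (h : Module.End E B) :
    (slotB h : Module.End E ((⨂[E] i, H i) ⊗[E] B)) = MM (fun _ => 1) h := by
  unfold MM
  have h1 := PiTensorProduct.map_one (R := E) (s := H)
  have h2 : (PiTensorProduct.map fun i => (1 : Module.End E (H i)) :
    Module.End E (⨂[E] i, H i)) = 1 := h1
  rw [h2]
  rfl

/-- the products of the operators of the factors on a common eigenvector -/
theorem prod_slot (f : ∀ i, Module.End E (H i)) {a : ι → E}
    {u : (⨂[E] i, H i) ⊗[E] B} (hu : ∀ i, slot i (f i) u = a i • u) (s : Finset ι) :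
    MM (fun i => if i ∈ s then f i else 1) 1 u = (∏ i ∈ s, a i) • u := by
  classical
  induction s using Finset.induction_on with
  | empty =>
    rw [prod_empty, one_smul]
    have h1 : (fun i => if i ∈ (∅ : Finset ι) then f i else (1 : Module.End E (H i))) =
        fun _ => 1 := by
      funext i
      rw [if_neg (Finset.notMem_empty i)]
    rw [h1, MM_one]
    rfl
  | insert i s hi ih =>
    have h1 : MM (fun k => if k ∈ insert i s then f k else (1 : Module.End E (H k)))
        (1 : Module.End E B) = slot i (f i) * MM (fun k => if k ∈ s then f k else 1) 1 := by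
      rw [slot_eq, MM_mul, mul_one]
      congr 1
      funext k
      by_cases hk : k = i
      · subst hk
        rw [if_pos (mem_insert_self _ _), if_neg hi, Function.update_self, mul_one]
      · rw [Function.update_of_ne hk, one_mul]
        by_cases hks : k ∈ s
        · rw [if_pos hks, if_pos (mem_insert_of_mem hks)]
        · rw [if_neg hks, if_neg]
          rw [mem_insert]
          exact fun h => h.elim hk hks
    rw [h1, Module.End.mul_apply, ih, map_smul, hu i, smul_smul, prod_insert hi, mul_comm]

end ops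

section tot

variable {E K W : Type} [Field E] [AddCommGroup W] [Module E W]

/-- Frobenius on the cohomology of one factor -/
noncomputable def tot (q : E) (deg : K → ℕ) (Φ : Module.End E W) :
    Module.End E ((K → E) × W) :=
  LinearMap.prodMap (LinearMap.pi fun k => (q ^ deg k) • LinearMap.proj k) Φ

/-- the projection to the algebraic classes -/
noncomputable def prj : Module.End E ((K → E) × W) := LinearMap.prodMap LinearMap.id 0

theorem tot_prj (q : E) (deg : K → ℕ) (Φ : Module.End E W) : Commute (tot q deg Φ) prj := by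
  show tot q deg Φ * prj = prj * tot q deg Φ
  refine LinearMap.ext fun x => ?_
  refine Prod.ext ?_ ?_
  · rfl
  · show Φ 0 = 0
    exact map_zero Φ

variable [FiniteDimensional E W]

theorem left_inv {Φ : Module.End E W} {a : E} (h : ¬ Φ.HasEigenvalue a) :
    ∃ S : Module.End E W, ∀ w, S (Φ w - a • w) = w := by
  have h1 : Function.Injective (Φ - a • (1 : Module.End E W)) := by
    rw [← LinearMap.ker_eq_bot, eq_bot_iff]
    intro w hw
    rw [LinearMap.mem_ker, LinearMap.sub_apply, LinearMap.smul_apply, Module.End.one_apply,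
      sub_eq_zero] at hw
    by_contra h0
    exact h (Module.End.hasEigenvalue_of_hasEigenvector
      (Module.End.hasEigenvector_iff.2 ⟨Module.End.mem_eigenspace_iff.2 hw, h0⟩))
  refine ⟨((LinearEquiv.ofInjectiveEndo _ h1).symm : W →ₗ[E] W), fun w => ?_⟩
  have h2 := LinearEquiv.ofInjectiveEndo_left_inv (Φ - a • (1 : Module.End E W)) h1
  exact LinearMap.congr_fun h2 w

end tot

section main

variable {E : Type} [Field E] [IsAlgClosed E] {ι : Type} [Fintype ι] [DecidableEq ι]
  {H : ι → Type} [∀ i, AddCommGroup (H i)] [∀ i, Module E (H i)]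
  [∀ i, FiniteDimensional E (H i)] {B : Type} [AddCommGroup B] [Module E B]
  [FiniteDimensional E B]

omit [IsAlgClosed E] [Fintype ι] [∀ i, FiniteDimensional E (H i)] [FiniteDimensional E B] in
theorem slot_zero {t S R : ∀ i, Module.End E (H i)} {u : (⨂[E] i, H i) ⊗[E] B} {i : ι} {a : E}
    (h : S i * (t i - a • 1) = R i) (hu : slot i (t i) u = a • u) : slot i (R i) u = 0 := by
  have h2 := congrArg (slot (H := H) (B := B) i) h
  rw [map_mul, map_sub, map_smul, map_one] at h2
  have h3 := LinearMap.congr_fun h2 u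
  rw [Module.End.mul_apply, LinearMap.sub_apply, LinearMap.smul_apply,
    Module.End.one_apply, hu, sub_self, map_zero] at h3
  exact h3.symm

omit [IsAlgClosed E] [Fintype ι] [DecidableEq ι] [∀ i, FiniteDimensional E (H i)] in
theorem eig_B {ΦB : Module.End E B} {u : (⨂[E] i, H i) ⊗[E] B} (hu0 : u ≠ 0) {β : E}
    (hu : slotB ΦB u = β • u) : ΦB.HasEigenvalue β := by
  by_contra h
  obtain ⟨S, hS⟩ := left_inv h
  have h1 : S * (ΦB - β • 1) = 1 := LinearMap.ext fun x => hS x
  have h2 := congrArg (slotB (E := E) (H := H)) h1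
  rw [map_mul, map_sub, map_smul, map_one] at h2
  have h3 := LinearMap.congr_fun h2 u
  rw [Module.End.mul_apply, LinearMap.sub_apply, LinearMap.smul_apply,
    Module.End.one_apply, hu, sub_self, map_zero] at h3
  exact hu0 h3.symm

omit [IsAlgClosed E] in
theorem eq_of_maxGen {T : Type} [AddCommGroup T] [Module E T] {f : Module.End E T} {u : T}
    (hu0 : u ≠ 0) {a μ : E} (hu : f u = a • u) (h : u ∈ f.maxGenEigenspace μ) : a = μ := by
  obtain ⟨r, hr⟩ := (Module.End.mem_maxGenEigenspace f μ u).1 h
  have h1 : ∀ r : ℕ, ((f - μ • 1) ^ r) u = (a - μ) ^ r • u := by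
    intro r
    induction r with
    | zero => rw [pow_zero, pow_zero, one_smul, Module.End.one_apply]
    | succ r ih =>
      rw [pow_succ', Module.End.mul_apply, ih, map_smul, LinearMap.sub_apply,
        LinearMap.smul_apply, Module.End.one_apply, hu, ← sub_smul, smul_smul, ← pow_succ]
  rw [h1] at hr
  rcases smul_eq_zero.1 hr with h2 | h2
  · by_contra h3
    exact pow_ne_zero r (sub_ne_zero.2 h3) h2
  · exact absurd h2 hu0

/-- the generalised eigenspaces of the tensor product -/
theorem gen_main (t p : ∀ i, Module.End E (H i)) (sW sK : ι → E → Prop)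
    (htp : ∀ i, Commute (t i) (p i)) (hpp : ∀ i, p i * p i = p i)
    (hW : ∀ i a, ¬ sW i a → ∃ S : Module.End E (H i), S * (t i - a • 1) = 1 - p i)
    (hK : ∀ i a, ¬ sK i a → ∃ S : Module.End E (H i), S * (t i - a • 1) = p i)
    (ΦB : Module.End E B) (m : ℕ) (μ : E)
    (hno : ∀ (I : Finset ι), I.Nonempty → ∀ (a : ι → E),
      (∀ i ∈ I, sW i (a i)) → (∀ i, i ∉ I → sK i (a i)) → ∀ (β : E), ΦB.HasEigenvalue β →
        ((∏ i, a i) * β) ^ m ≠ μ)
    (v : (⨂[E] i, H i) ⊗[E] B)
    (hv : v ∈ ((MM t ΦB) ^ m).maxGenEigenspace μ) :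
    MM p 1 v = v := by
  classical
  set F := MM t ΦB with hF
  set P : Module.End E ((⨂[E] i, H i) ⊗[E] B) := MM p 1 with hP
  -- the commuting operators
  set pp : (ι ⊕ ι) ⊕ Unit → ∀ k, Module.End E (H k) := fun j =>
    match j with
    | Sum.inl (Sum.inl i) => Function.update (fun _ => 1) i (t i)
    | Sum.inl (Sum.inr i) => Function.update (fun _ => 1) i (p i)
    | Sum.inr () => fun _ => 1 with hp
  set hh : (ι ⊕ ι) ⊕ Unit → Module.End E B := fun j =>
    match j with
    | Sum.inl _ => 1
    | Sum.inr () => ΦB with hhh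
  set X : (ι ⊕ ι) ⊕ Unit → Module.End E ((⨂[E] i, H i) ⊗[E] B) := fun j =>
    MM (pp j) (hh j) with hX
  have hp1 : ∀ j k, pp j k = 1 ∨ pp j k = t k ∨ pp j k = p k := by
    intro j k
    rcases j with (i | i) | ⟨⟩
    · by_cases hk : k = i
      · subst hk
        right; left
        exact Function.update_self _ _ _
      · left
        exact Function.update_of_ne hk _ _
    · by_cases hk : k = i
      · subst hk
        right; right
        exact Function.update_self _ _ _
      · left
        exact Function.update_of_ne hk _ _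
    · left
      rfl
  have hh1 : ∀ j, hh j = 1 ∨ hh j = ΦB := by
    intro j
    rcases j with i | ⟨⟩
    · left; rfl
    · right; rfl
  have hppc : ∀ j j' k, Commute (pp j k) (pp j' k) := by
    intro j j' k
    rcases hp1 j k with h1 | h1 | h1 <;> rcases hp1 j' k with h2 | h2 | h2 <;> rw [h1, h2]
    · exact Commute.one_left _
    · exact Commute.one_left _
    · exact Commute.one_right _
    · exact htp k
    · exact Commute.one_right _
    · exact (htp k).symm
  have hhc : ∀ j j', Commute (hh j) (hh j') := by
    intro j j'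
    rcases hh1 j with h1 | h1 <;> rcases hh1 j' with h2 | h2 <;> rw [h1, h2]
    · exact Commute.one_left _
    · exact Commute.one_right _
  have hXX : ∀ j j', Commute (X j) (X j') := fun j j' => MM_comm (hppc j j') (hhc j j')
  have hXF : ∀ j, Commute F (X j) := by
    intro j
    refine MM_comm (fun k => ?_) ?_
    · rcases hp1 j k with h1 | h1 | h1 <;> rw [h1]
      · exact Commute.one_right _
      · exact htp k
    · rcases hh1 j with h1 | h1 <;> rw [h1]
      exact Commute.one_right _
  have hXP : ∀ j, Commute P (X j) := by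
    intro j
    refine MM_comm (fun k => ?_) ?_
    · rcases hp1 j k with h1 | h1 | h1 <;> rw [h1]
      · exact Commute.one_right _
      · exact (htp k).symm
    · exact Commute.one_left _
  have hPF : Commute F P := MM_comm (fun k => htp k) (Commute.one_right _)
  by_contra hne
  set U : Submodule E ((⨂[E] i, H i) ⊗[E] B) :=
    (F ^ m).maxGenEigenspace μ ⊓ LinearMap.ker P with hU
  have hPP : P * P = P := by
    rw [hP, MM_mul, mul_one, funext hpp]
  have hU0 : U ≠ ⊥ := by
    rw [Submodule.ne_bot_iff]
    refine ⟨v - P v, ⟨?_, ?_⟩, ?_⟩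
    · refine Submodule.sub_mem _ hv ?_
      exact Module.End.mapsTo_maxGenEigenspace_of_comm (hPF.pow_left m) μ hv
    · show P (v - P v) = 0
      rw [map_sub, ← Module.End.mul_apply, hPP, sub_self]
    · intro h0
      exact hne (sub_eq_zero.1 h0).symm
  obtain ⟨u, hu, hu0, hcom⟩ := common X hXX univ U hU0 (by
    rintro j _ u ⟨hu1, hu2⟩
    refine ⟨Module.End.mapsTo_maxGenEigenspace_of_comm ((hXF j).pow_left m) μ hu1, ?_⟩
    have hu3 : P u = 0 := hu2
    show P (X j u) = 0
    rw [← Module.End.mul_apply, (hXP j).eq, Module.End.mul_apply, hu3, map_zero])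
  have h1 : ∀ i, ∃ a : E, slot i (t i) u = a • u := by
    intro i
    obtain ⟨a, ha⟩ := hcom (Sum.inl (Sum.inl i)) (mem_univ _)
    exact ⟨a, ha⟩
  have h2 : ∀ i, ∃ a : E, slot i (p i) u = a • u := by
    intro i
    obtain ⟨a, ha⟩ := hcom (Sum.inl (Sum.inr i)) (mem_univ _)
    exact ⟨a, ha⟩
  have h3 : ∃ β : E, slotB ΦB u = β • u := by
    obtain ⟨a, ha⟩ := hcom (Sum.inr ()) (mem_univ _)
    refine ⟨a, ?_⟩
    rw [slotB_eq]
    exact ha
  choose a ha using h1
  choose ε hε using h2
  obtain ⟨β, hβ⟩ := h3
  have hβ' := eig_B hu0 hβ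
  -- the product of the projections
  have h4 := prod_slot p hε univ
  have h5 : (fun i => if i ∈ (univ : Finset ι) then p i else 1) = p := by
    funext i
    rw [if_pos (mem_univ i)]
  rw [h5, ← hP] at h4
  have h6 : P u = 0 := hu.2
  rw [h6] at h4
  have h7 : ∏ i, ε i = 0 := by
    rcases smul_eq_zero.1 h4.symm with h | h
    · exact h
    · exact absurd h hu0
  obtain ⟨i0, _, hi0⟩ := prod_eq_zero_iff.1 h7
  -- the product of the Frobenius operators
  have h8 := prod_slot t ha univ
  have h9 : (fun i => if i ∈ (univ : Finset ι) then t i else 1) = t := by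
    funext i
    rw [if_pos (mem_univ i)]
  rw [h9] at h8
  have h10 : F u = ((∏ i, a i) * β) • u := by
    have h11 : F = MM t 1 * slotB ΦB := by
      rw [slotB_eq, MM_mul, one_mul]
      simp only [mul_one]
      rfl
    rw [h11, Module.End.mul_apply, hβ, map_smul, h8, smul_smul, mul_comm]
  have h11 : ∀ r : ℕ, (F ^ r) u = ((∏ i, a i) * β) ^ r • u := by
    intro r
    induction r with
    | zero => rw [pow_zero, pow_zero, one_smul, Module.End.one_apply]
    | succ r ih => rw [pow_succ', Module.End.mul_apply, ih, map_smul, h10, smul_smul, ← pow_succ]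
  have h12 := eq_of_maxGen hu0 (h11 m) hu.1
  refine hno (univ.filter fun i => ε i = 0) ⟨i0, mem_filter.2 ⟨mem_univ _, hi0⟩⟩ a ?_ ?_ β hβ' h12
  · intro i hi
    by_contra hs
    obtain ⟨S, hS⟩ := hW i (a i) hs
    have h13 : slot i (1 - p i) u = 0 :=
      slot_zero (t := t) (S := Function.update 0 i S) (R := Function.update 0 i (1 - p i))
        (i := i) (by rw [Function.update_self, Function.update_self]; exact hS) (ha i) |> fun h => by
          rwa [Function.update_self] at h
    rw [map_sub, map_one, LinearMap.sub_apply, Module.End.one_apply, hε i,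
      (mem_filter.1 hi).2, zero_smul, sub_zero] at h13
    exact hu0 h13
  · intro i hi
    have hi' : ε i ≠ 0 := fun h => hi (mem_filter.2 ⟨mem_univ _, h⟩)
    by_contra hs
    obtain ⟨S, hS⟩ := hK i (a i) hs
    have h13 : slot i (p i) u = 0 :=
      slot_zero (t := t) (S := Function.update 0 i S) (R := p)
        (i := i) (by rw [Function.update_self]; exact hS) (ha i)
    rw [hε i] at h13
    exact (smul_ne_zero hi' hu0) h13

end main

section factor

variable {E K W : Type} [Field E] [AddCommGroup W] [Module E W] [FiniteDimensional E W]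

theorem fac_W {q : E} {deg : K → ℕ} {Φ : Module.End E W} {a : E} (h : ¬ Φ.HasEigenvalue a) :
    ∃ S : Module.End E ((K → E) × W), S * (tot q deg Φ - a • 1) = 1 - prj := by
  obtain ⟨S, hS⟩ := left_inv h
  refine ⟨LinearMap.prodMap 0 S, ?_⟩
  refine LinearMap.ext fun x => ?_
  refine Prod.ext ?_ ?_
  · show (0 : K → E) = x.1 - x.1
    rw [sub_self]
  · show S (Φ x.2 - a • x.2) = x.2 - 0
    rw [hS, sub_zero]

omit [FiniteDimensional E W] in
theorem fac_K {q : E} {deg : K → ℕ} {Φ : Module.End E W} {a : E}
    (h : ¬ ∃ k, a = q ^ deg k) :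
    ∃ S : Module.End E ((K → E) × W), S * (tot q deg Φ - a • 1) = prj := by
  push Not at h
  refine ⟨LinearMap.prodMap (LinearMap.pi fun k => (q ^ deg k - a)⁻¹ • LinearMap.proj k) 0, ?_⟩
  refine LinearMap.ext fun x => ?_
  refine Prod.ext ?_ ?_
  · funext k
    show (q ^ deg k - a)⁻¹ * (q ^ deg k * x.1 k - a * x.1 k) = x.1 k
    rw [← sub_mul, ← mul_assoc, inv_mul_cancel₀ (sub_ne_zero.2 (h k).symm), one_mul]
  · rfl

omit [FiniteDimensional E W] in
theorem prj_prj : (prj : Module.End E ((K → E) × W)) * prj = prj := rfl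

end factor

end Pool.Agent.N876.TC
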